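import Mathlib

/-!
# The coefficients of the powers of a polynomial
-/

set_option autoImplicit false

namespace Pool.Agent.P8H64.TP

open Polynomial Finset

theorem central_sq (m : ℕ) : (Nat.centralBinom m) ^ 2 * (2 * m + 1) ≤ 16 ^ m := by
  induction m with
  | zero => simp
  | succ m ih =>
    have h := Nat.succ_mul_centralBinom_succ m
    have h2 : (m + 1) ^ 2 * ((Nat.centralBinom (m + 1)) ^ 2 * (2 * (m + 1) + 1)) ≤ (m + 1) ^ 2 * 16 ^ (m + 1) := by
      calc (m + 1) ^ 2 * ((Nat.centralBinom (m + 1)) ^ 2 * (2 * (m + 1) + 1))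
          = ((m + 1) * Nat.centralBinom (m + 1)) ^ 2 * (2 * m + 3) := by ring
        _ = (2 * (2 * m + 1) * Nat.centralBinom m) ^ 2 * (2 * m + 3) := by rw [h]
        _ = (4 * (2 * m + 1) * (2 * m + 3)) * ((Nat.centralBinom m) ^ 2 * (2 * m + 1)) := by ring
        _ ≤ (4 * (2 * m + 1) * (2 * m + 3)) * 16 ^ m := Nat.mul_le_mul_left _ ih
        _ ≤ (16 * (m + 1) ^ 2) * 16 ^ m := Nat.mul_le_mul_right _ (by nlinarith)
        _ = (m + 1) ^ 2 * 16 ^ (m + 1) := by ring
    exact Nat.le_of_mul_le_mul_left h2 (by positivity)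

theorem middle_sq (M : ℕ) : (M.choose (M / 2)) ^ 2 * (M + 1) ≤ 4 ^ M := by
  rcases Nat.even_or_odd' M with ⟨m, rfl | rfl⟩
  · have h := central_sq m
    rw [Nat.centralBinom] at h
    rw [Nat.mul_div_cancel_left m (by norm_num), pow_mul]
    exact h
  · have h := central_sq (m + 1)
    have h1 : (2 * m + 1) / 2 = m := by omega
    have h2 : Nat.centralBinom (m + 1) = 2 * (2 * m + 1).choose m := by
      rw [Nat.centralBinom, show 2 * (m + 1) = (2 * m + 1) + 1 by ring, Nat.choose_succ_succ,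
        Nat.choose_symm_half]
      ring
    rw [h1]
    rw [h2] at h
    have h3 : 4 * ((2 * m + 1).choose m ^ 2 * (2 * m + 1 + 1)) ≤ 4 * 4 ^ (2 * m + 1) := by
      calc 4 * ((2 * m + 1).choose m ^ 2 * (2 * m + 1 + 1))
          ≤ (2 * (2 * m + 1).choose m) ^ 2 * (2 * (m + 1) + 1) := by nlinarith [Nat.zero_le ((2 * m + 1).choose m ^ 2)]
        _ ≤ 16 ^ (m + 1) := h
        _ = 4 * 4 ^ (2 * m + 1) := by
          rw [show (16 : ℕ) = 4 ^ 2 by norm_num, ← pow_mul, ← pow_succ']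
          congr 1
    exact Nat.le_of_mul_le_mul_left h3 (by norm_num)

theorem middle_le (M : ℕ) : (M.choose (M / 2) : ℝ) ≤ 2 ^ M / √(M + 1) := by
  have h : ((M.choose (M / 2) : ℝ)) ^ 2 * (M + 1) ≤ 4 ^ M := by exact_mod_cast middle_sq M
  have h0 : (0 : ℝ) < M + 1 := by positivity
  rw [le_div_iff₀ (Real.sqrt_pos.2 h0)]
  refine le_of_sq_le_sq ?_ (by positivity)
  rw [mul_pow, Real.sq_sqrt h0.le, ← pow_mul, mul_comm M 2, pow_mul]
  norm_num
  exact h

/-- the coefficients of a product -/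
theorem coeff_mul_le {F R : ℝ[X]} {s : ℝ} (hs : 0 ≤ s) (hF : ∀ i, F.coeff i ≤ s) (hR : ∀ i, 0 ≤ R.coeff i)
    (i : ℕ) : (F * R).coeff i ≤ s * R.eval 1 := by
  rw [mul_comm F R, coeff_mul]
  calc ∑ x ∈ antidiagonal i, R.coeff x.1 * F.coeff x.2
      ≤ ∑ x ∈ antidiagonal i, R.coeff x.1 * s :=
        sum_le_sum fun x _ => mul_le_mul_of_nonneg_left (hF x.2) (hR x.1)
    _ = s * ∑ j ∈ range (i + 1), R.coeff j := by
        rw [Finset.Nat.sum_antidiagonal_eq_sum_range_succ (fun a _ => R.coeff a * s) i, ← sum_mul, mul_comm]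
    _ ≤ s * R.eval 1 := by
        refine mul_le_mul_of_nonneg_left ?_ hs
        rw [eval_eq_sum_range' (n := max (i + 1) (R.natDegree + 1)) (by omega)]
        simp only [one_pow, mul_one]
        exact sum_le_sum_of_subset_of_nonneg (range_subset_range.2 (le_max_left _ _)) fun j _ _ => hR j

/-- nonnegative coefficients -/
def NN (P : ℝ[X]) : Prop := ∀ i, 0 ≤ P.coeff i

theorem NN.mul {P Q : ℝ[X]} (h1 : NN P) (h2 : NN Q) : NN (P * Q) := by
  intro i
  rw [coeff_mul]
  exact sum_nonneg fun x _ => mul_nonneg (h1 _) (h2 _)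

theorem NN.one : NN 1 := by
  intro i
  rw [coeff_one]
  split_ifs <;> norm_num

theorem NN.pow {P : ℝ[X]} (h : NN P) (k : ℕ) : NN (P ^ k) := by
  induction k with
  | zero => rw [pow_zero]; exact NN.one
  | succ k ih => rw [pow_succ]; exact ih.mul h

theorem NN.eval {P : ℝ[X]} (h : NN P) : 0 ≤ P.eval 1 := by
  rw [eval_eq_sum_range]
  exact sum_nonneg fun j _ => by simpa using h j

theorem NN.coeff_le {P : ℝ[X]} (h : NN P) (i : ℕ) : P.coeff i ≤ P.eval 1 := by
  have := coeff_mul_le (F := 1) (R := P) (s := 1) zero_le_one (fun i => by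
    rw [coeff_one]; split_ifs <;> norm_num) h i
  simpa using this

/-- a lower bound for the coefficients of the powers -/
theorem NN.pow_coeff {P : ℝ[X]} (h : NN P) (i k : ℕ) : (P.coeff i) ^ k ≤ (P ^ k).coeff (k * i) := by
  induction k with
  | zero => simp
  | succ k ih =>
    rw [pow_succ, pow_succ, coeff_mul]
    calc P.coeff i ^ k * P.coeff i ≤ (P ^ k).coeff (k * i) * P.coeff i :=
          mul_le_mul_of_nonneg_right ih (h i)
      _ ≤ _ := by
        refine single_le_sum (f := fun x : ℕ × ℕ => (P ^ k).coeff x.1 * P.coeff x.2)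
          (fun x _ => mul_nonneg (h.pow k _) (h _)) (a := (k * i, i)) ?_
        rw [HasAntidiagonal.mem_antidiagonal]
        ring

theorem two_coeff {a b : ℕ} (hab : a ≠ b) (q : ℝ) (hq : 0 ≤ q) (M x : ℕ) :
    ((C q * (X ^ a + X ^ b)) ^ M : ℝ[X]).coeff x ≤ (2 * q) ^ M / √(M + 1) := by
  have h1 : ((C q * (X ^ a + X ^ b)) ^ M : ℝ[X]).coeff x =
      q ^ M * ∑ m ∈ range (M + 1), if x = a * m + b * (M - m) then (M.choose m : ℝ) else 0 := by
    rw [mul_pow, ← C_pow, coeff_C_mul, add_pow, finsetSum_coeff]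
    congr 1
    refine sum_congr rfl fun m _ => ?_
    rw [← pow_mul, ← pow_mul, ← pow_add, ← C_eq_natCast, mul_comm, coeff_C_mul, coeff_X_pow]
    split_ifs <;> simp
  have h2 : ∑ m ∈ range (M + 1), (if x = a * m + b * (M - m) then (M.choose m : ℝ) else 0) ≤
      (M.choose (M / 2) : ℝ) := by
    rw [← sum_filter]
    have h3 : ((range (M + 1)).filter fun m => x = a * m + b * (M - m)).card ≤ 1 := by
      rw [card_le_one]
      intro m hm n hn
      rw [mem_filter, mem_range] at hm hn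
      obtain ⟨hm1, hm2⟩ := hm
      obtain ⟨hn1, hn2⟩ := hn
      obtain ⟨m', hm'⟩ : ∃ m', M = m + m' := ⟨M - m, by omega⟩
      obtain ⟨n', hn'⟩ : ∃ n', M = n + n' := ⟨M - n, by omega⟩
      have e1 : M - m = m' := by omega
      have e2 : M - n = n' := by omega
      rw [e1] at hm2
      rw [e2] at hn2
      have h4 : ((a : ℤ) - b) * (m - n) = 0 := by
        have f1 : (a : ℤ) * m + b * m' = a * n + b * n' := by exact_mod_cast hm2.symm.trans hn2
        have f2 : (m : ℤ) + m' = n + n' := by exact_mod_cast hm'.symm.trans hn'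
        linear_combination f1 - (b : ℤ) * f2
      rcases mul_eq_zero.1 h4 with h5 | h5
      · exact absurd (by omega) hab
      · omega
    calc ∑ m ∈ (range (M + 1)).filter (fun m => x = a * m + b * (M - m)), (M.choose m : ℝ)
        ≤ ∑ m ∈ (range (M + 1)).filter (fun m => x = a * m + b * (M - m)), (M.choose (M / 2) : ℝ) :=
          sum_le_sum fun m _ => by exact_mod_cast Nat.choose_le_middle m M
      _ = (((range (M + 1)).filter fun m => x = a * m + b * (M - m)).card : ℝ) * (M.choose (M / 2) : ℝ) := by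
          rw [sum_const, nsmul_eq_mul]
      _ ≤ 1 * (M.choose (M / 2) : ℝ) :=
          mul_le_mul_of_nonneg_right (by exact_mod_cast h3) (Nat.cast_nonneg _)
      _ = _ := one_mul _
  rw [h1]
  calc q ^ M * ∑ m ∈ range (M + 1), (if x = a * m + b * (M - m) then (M.choose m : ℝ) else 0)
      ≤ q ^ M * (2 ^ M / √(M + 1)) :=
        mul_le_mul_of_nonneg_left (h2.trans (middle_le M)) (pow_nonneg hq M)
    _ = (2 * q) ^ M / √(M + 1) := by rw [mul_pow]; ring

/-- the mean of `1 / √(M + 1)` -/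
theorem mean_le (p r : ℝ) (hp : 0 < p) (hr : 0 ≤ r) (k : ℕ) :
    ∑ M ∈ range (k + 1), (k.choose M : ℝ) * (p ^ M / √(M + 1)) * r ^ (k - M) ≤
      ((p + r) / p + 1) / 2 * ((p + r) ^ k / √(k + 1)) := by
  set t : ℝ := √(k + 1) with ht
  have ht0 : 0 < t := Real.sqrt_pos.2 (by positivity)
  have ht2 : t * t = k + 1 := Real.mul_self_sqrt (by positivity)
  have h1 : ∀ M ∈ range (k + 1), (k.choose M : ℝ) * (p ^ M / √(M + 1)) * r ^ (k - M) ≤
      (t / 2) * ((k.choose M : ℝ) / (M + 1) * p ^ M * r ^ (k - M)) +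
        (1 / (2 * t)) * (p ^ M * r ^ (k - M) * (k.choose M : ℝ)) := by
    intro M _
    have hM : (0 : ℝ) < M + 1 := by positivity
    have hs0 : 0 < √((M : ℝ) + 1) := Real.sqrt_pos.2 hM
    have hs : √((M : ℝ) + 1) * √((M : ℝ) + 1) = M + 1 := Real.mul_self_sqrt hM.le
    have h2 : 1 / √((M : ℝ) + 1) ≤ (t / 2) * (1 / (M + 1)) + 1 / (2 * t) := by
      have h3 : 0 ≤ (t - √((M : ℝ) + 1)) ^ 2 / (2 * t * (√((M : ℝ) + 1) * √((M : ℝ) + 1))) := by positivity
      have h4 : (t / 2) * (1 / (√((M : ℝ) + 1) * √((M : ℝ) + 1))) + 1 / (2 * t) - 1 / √((M : ℝ) + 1) =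
          (t - √((M : ℝ) + 1)) ^ 2 / (2 * t * (√((M : ℝ) + 1) * √((M : ℝ) + 1))) := by
        field_simp
        ring
      rw [hs] at h3 h4
      linarith
    have h5 : 0 ≤ (k.choose M : ℝ) * p ^ M * r ^ (k - M) := by positivity
    calc (k.choose M : ℝ) * (p ^ M / √(M + 1)) * r ^ (k - M)
        = ((k.choose M : ℝ) * p ^ M * r ^ (k - M)) * (1 / √((M : ℝ) + 1)) := by ring
      _ ≤ ((k.choose M : ℝ) * p ^ M * r ^ (k - M)) * ((t / 2) * (1 / (M + 1)) + 1 / (2 * t)) :=
        mul_le_mul_of_nonneg_left h2 h5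
      _ = _ := by ring
  refine (sum_le_sum h1).trans ?_
  rw [sum_add_distrib, ← mul_sum, ← mul_sum, ← add_pow p r k]
  have h6 : ∑ M ∈ range (k + 1), (k.choose M : ℝ) / (M + 1) * p ^ M * r ^ (k - M) ≤
      (p + r) ^ (k + 1) / (p * (k + 1)) := by
    have h7 : (p + r) ^ (k + 1) = ∑ M ∈ range (k + 1), p ^ (M + 1) * r ^ (k - M) * ((k + 1).choose (M + 1) : ℝ) +
        r ^ (k + 1) := by
      rw [add_pow, sum_range_succ']
      simp
    have h8 : ∀ M ∈ range (k + 1), (k.choose M : ℝ) / (M + 1) * p ^ M * r ^ (k - M) =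
        (p ^ (M + 1) * r ^ (k - M) * ((k + 1).choose (M + 1) : ℝ)) * (1 / (p * (k + 1))) := by
      intro M _
      have h9 : ((k : ℝ) + 1) * (k.choose M : ℝ) = ((k + 1).choose (M + 1) : ℝ) * (M + 1) := by
        exact_mod_cast Nat.add_one_mul_choose_eq k M
      have hM : ((M : ℝ) + 1) ≠ 0 := by positivity
      have hk : ((k : ℝ) + 1) ≠ 0 := by positivity
      have h10 : (k.choose M : ℝ) / (M + 1) = ((k + 1).choose (M + 1) : ℝ) / (k + 1) := by
        rw [div_eq_div_iff hM hk]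
        linarith
      rw [h10]
      field_simp
      ring
    rw [sum_congr rfl h8, ← sum_mul, h7, mul_one_div]
    refine div_le_div_of_nonneg_right ?_ (by positivity)
    have : 0 ≤ r ^ (k + 1) := by positivity
    linarith
  have hk : ((k : ℝ) + 1) ≠ 0 := by positivity
  calc t / 2 * ∑ M ∈ range (k + 1), (k.choose M : ℝ) / (M + 1) * p ^ M * r ^ (k - M) +
        1 / (2 * t) * (p + r) ^ k
      ≤ t / 2 * ((p + r) ^ (k + 1) / (p * (k + 1))) + 1 / (2 * t) * (p + r) ^ k := by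
        have := mul_le_mul_of_nonneg_left h6 (by positivity : 0 ≤ t / 2)
        linarith
    _ = ((p + r) / p + 1) / 2 * ((p + r) ^ k / t) := by
        rw [← ht2, pow_succ]
        field_simp

/-- the powers of a polynomial with nonnegative coefficients, two of them nonzero, are spread out -/
theorem spread {P : ℝ[X]} (hP : NN P) {a b : ℕ} (hab : a ≠ b) {q : ℝ} (hq : 0 < q) (ha : q ≤ P.coeff a)
    (hb : q ≤ P.coeff b) (k i : ℕ) :
    (P ^ k).coeff i ≤ (P.eval 1 / (2 * q) + 1) / 2 * ((P.eval 1) ^ k / √(k + 1)) := by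
  set A : ℝ[X] := C q * (X ^ a + X ^ b) with hA
  set R : ℝ[X] := P - A with hR
  have hPA : P = A + R := by rw [hR]; ring
  have hA1 : A.eval 1 = 2 * q := by
    rw [hA]; simp; ring
  have hRn : NN R := by
    intro j
    rw [hR, coeff_sub, hA, coeff_C_mul, coeff_add, coeff_X_pow, coeff_X_pow]
    by_cases h1 : j = a
    · subst h1
      rw [if_pos rfl, if_neg hab]
      linarith
    · rw [if_neg h1]
      by_cases h2 : j = b
      · subst h2
        rw [if_pos rfl]
        linarith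
      · rw [if_neg h2]
        have := hP j
        linarith
  have hS : P.eval 1 = 2 * q + R.eval 1 := by
    conv_lhs => rw [hPA]
    rw [eval_add, hA1]
  have h1 : (P ^ k).coeff i ≤ ∑ M ∈ range (k + 1), (k.choose M : ℝ) * ((2 * q) ^ M / √(M + 1)) *
      (R.eval 1) ^ (k - M) := by
    rw [hPA, add_pow, finsetSum_coeff]
    refine sum_le_sum fun M _ => ?_
    have h2 := coeff_mul_le (F := A ^ M) (R := R ^ (k - M)) (s := (2 * q) ^ M / √(M + 1)) (by positivity)
      (two_coeff hab q hq.le M) (hRn.pow _) i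
    rw [eval_pow] at h2
    rw [← C_eq_natCast, mul_comm, coeff_C_mul, mul_assoc]
    exact mul_le_mul_of_nonneg_left h2 (Nat.cast_nonneg _)
  refine h1.trans ?_
  have h3 := mean_le (2 * q) (R.eval 1) (by positivity) hRn.eval k
  rw [← hS] at h3
  exact h3

end Pool.Agent.P8H64.TP
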