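import Pool.Agent.W907.SG.Defs

/-!
# The `ℓ²`-Betti numbers of a right-angled Coxeter group
-/

set_option autoImplicit false

namespace Pool.Agent.P8H64.TP

open Pool.Agent.W907.SG

/-- `sup {c(1,T)² : c` an `ℓ²` harmonic `|T|`-chain of norm `≤ 1}`. This is the diagonal matrix coefficient at `(1, T)`
of the orthogonal projection of `ℓ²(W)^(subsets)` onto the closed subspace of the harmonic `|T|`-chains. -/
noncomputable def b2 {V : Type} [Fintype V] [LinearOrder V] (G : SimpleGraph V) (T : Finset V) : ℝ :=
  sSup {r : ℝ | ∃ c : W G → Finset V → ℝ, IsHarm G T.card c ∧ ∑' x : W G × Finset V, (c x.1 x.2) ^ 2 ≤ 1 ∧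
    r = (c 1 T) ^ 2}

/-- The `i`-th `ℓ²`-Betti number of the right-angled Coxeter group `W G`: the von Neumann dimension (the trace of
the orthogonal projection) of the space of the `ℓ²` harmonic `i`-chains of the Davis complex. -/
noncomputable def bet {V : Type} [Fintype V] [LinearOrder V] (G : SimpleGraph V) (i : ℕ) : ℝ :=
  ∑ T ∈ (Finset.univ : Finset V).powersetCard i, b2 G T

end Pool.Agent.P8H64.TP
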