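import Pool.Agent.P8H64.TP.Slice
import Pool.Agent.P8H64.TP.BetDef

/-!
# Multiplicativity of the `ℓ²`-Betti numbers under joins
-/

set_option autoImplicit false
set_option linter.unusedSectionVars false
set_option linter.style.haveILetI false

namespace Pool.Agent.P8H64.TP

open Pool.Agent.W907.SG Pool.Agent.W907.SM Pool.Agent.TH652.Join

section One
variable {V : Type} [Fintype V] [LinearOrder V] {G : SimpleGraph V}

theorem smul_harm {i : ℕ} {c : W G → Finset V → ℝ} (h : IsHarm G i c) (a : ℝ) :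
    IsHarm G i (fun w T => a * c w T) := by
  refine ⟨fun w T hT => ?_, fun w T t ht => ?_, ?_, fun w T => ?_, fun w T hT => ?_⟩
  · simp only [h.supp w T hT, mul_zero]
  · simp only [h.anti w T t ht, mul_neg]
  · refine (h.summable.mul_left (a ^ 2)).congr fun x => ?_
    ring
  · have := h.cycle w T
    have e : ∑ v ∈ Tᶜ, (sg v T : ℝ) * (a * c w (insert v T)) = a * ∑ v ∈ Tᶜ, (sg v T : ℝ) * c w (insert v T) := by
      rw [Finset.mul_sum]
      exact Finset.sum_congr rfl fun _ _ => by ring
    rw [e, this, mul_zero]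
  · have := h.cocycle w T hT
    have e : ∑ t ∈ T, (sg t (T.erase t) : ℝ) * (a * c w (T.erase t) - a * c (w * (cox G).simple t) (T.erase t)) =
        a * ∑ t ∈ T, (sg t (T.erase t) : ℝ) * (c w (T.erase t) - c (w * (cox G).simple t) (T.erase t)) := by
      rw [Finset.mul_sum]
      exact Finset.sum_congr rfl fun _ _ => by ring
    rw [e, this, mul_zero]

theorem transl_harm {i : ℕ} {c : W G → Finset V → ℝ} (h : IsHarm G i c) (g : W G) :
    IsHarm G i (fun w T => c (g * w) T) := by
  refine ⟨fun w T hT => h.supp _ T hT, fun w T t ht => ?_, ?_, fun w T => h.cycle _ T, fun w T hT => ?_⟩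
  · show c (g * (w * _)) T = _
    rw [← mul_assoc]
    exact h.anti _ T t ht
  · refine h.summable.comp_injective (i := fun x : W G × Finset V => (g * x.1, x.2)) ?_
    rintro ⟨a, S⟩ ⟨b, T⟩ e
    simp only [Prod.mk.injEq, mul_right_inj] at e
    exact Prod.ext e.1 e.2
  · simp only [← mul_assoc]
    exact h.cocycle _ T hT

theorem zero_harm (i : ℕ) : IsHarm G i (fun _ _ => 0) := by
  refine ⟨fun w T hT => rfl, fun w T t ht => by simp, ?_, fun w T => by simp, fun w T hT => by simp⟩
  simp

/-- the squared norm -/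
noncomputable def nrm (G : SimpleGraph V) (c : W G → Finset V → ℝ) : ℝ := ∑' x : W G × Finset V, (c x.1 x.2) ^ 2

theorem nrm_nonneg (c : W G → Finset V → ℝ) : 0 ≤ nrm G c := tsum_nonneg fun _ => sq_nonneg _

theorem le_nrm {i : ℕ} {c : W G → Finset V → ℝ} (h : IsHarm G i c) (w : W G) (T : Finset V) :
    (c w T) ^ 2 ≤ nrm G c :=
  h.summable.le_tsum (w, T) fun _ _ => sq_nonneg _

theorem b2_bdd (T : Finset V) : BddAbove {r : ℝ | ∃ c : W G → Finset V → ℝ, IsHarm G T.card c ∧
    ∑' x : W G × Finset V, (c x.1 x.2) ^ 2 ≤ 1 ∧ r = (c 1 T) ^ 2} := by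
  refine ⟨1, ?_⟩
  rintro r ⟨c, hc, hn, rfl⟩
  exact (le_nrm hc 1 T).trans hn

theorem b2_nonneg (T : Finset V) : 0 ≤ b2 G T := by
  refine le_csSup (b2_bdd T) ⟨_, zero_harm _, ?_, ?_⟩
  · simp
  · simp

theorem b2_le {T : Finset V} {M : ℝ} (h0 : 0 ≤ M) (h : ∀ c : W G → Finset V → ℝ, IsHarm G T.card c →
    nrm G c ≤ 1 → (c 1 T) ^ 2 ≤ M) : b2 G T ≤ M := by
  refine Real.sSup_le ?_ h0
  rintro r ⟨c, hc, hn, rfl⟩
  exact h c hc hn

theorem le_b2 {T : Finset V} {c : W G → Finset V → ℝ} (h : IsHarm G T.card c) :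
    (c 1 T) ^ 2 ≤ b2 G T * nrm G c := by
  rcases (nrm_nonneg (G := G) c).eq_or_lt with h0 | h0
  · have := le_nrm h 1 T
    rw [← h0, mul_zero]
    rw [← h0] at this
    exact this
  · have h1 : ((Real.sqrt (nrm G c))⁻¹ * c 1 T) ^ 2 ≤ b2 G T := by
      refine le_csSup (b2_bdd T) ⟨_, smul_harm h (Real.sqrt (nrm G c))⁻¹, ?_, rfl⟩
      have e : ∀ x : W G × Finset V, ((Real.sqrt (nrm G c))⁻¹ * c x.1 x.2) ^ 2 =
          (nrm G c)⁻¹ * (c x.1 x.2) ^ 2 := by
        intro x
        rw [mul_pow, inv_pow, Real.sq_sqrt h0.le]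
      rw [tsum_congr e, tsum_mul_left]
      have : ∑' x : W G × Finset V, (c x.1 x.2) ^ 2 = nrm G c := rfl
      rw [this, inv_mul_cancel₀ h0.ne']
    rw [mul_pow, inv_pow, Real.sq_sqrt h0.le, inv_mul_le_iff₀ h0] at h1
    linarith

theorem b2_supp {T : Finset V} (h : ¬ G.IsClique (T : Set V)) : b2 G T = 0 := by
  refine le_antisymm (b2_le le_rfl fun c hc _ => ?_) (b2_nonneg T)
  rw [hc.supp 1 T fun h1 => h h1.1]
  simp

theorem van_iff (i : ℕ) : L2Van G i ↔ ∀ T : Finset V, T.card = i → b2 G T = 0 := by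
  constructor
  · intro h T hT
    refine le_antisymm (b2_le le_rfl fun c hc _ => ?_) (b2_nonneg T)
    rw [hT] at hc
    rw [h c hc]
    simp
  · intro h c hc
    funext w T
    by_cases hT : T.card = i
    · have h1 := le_b2 (T := T) (c := fun w' T => c (w * w') T) (by rw [hT]; exact transl_harm hc w)
      rw [h T hT, zero_mul, mul_one] at h1
      exact pow_eq_zero_iff (two_ne_zero) |>.1 (le_antisymm h1 (sq_nonneg _))
    · exact hc.supp w T fun h1 => hT h1.2

theorem bet_nonneg (i : ℕ) : 0 ≤ bet G i := Finset.sum_nonneg fun T _ => b2_nonneg T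

theorem bet_eq_zero (i : ℕ) : bet G i = 0 ↔ L2Van G i := by
  rw [van_iff, bet, Finset.sum_eq_zero_iff_of_nonneg (fun T _ => b2_nonneg T)]
  simp only [Finset.mem_powersetCard, Finset.subset_univ, true_and]

end One

section Two
variable {V U : Type} [Fintype V] [LinearOrder V] [Fintype U] [LinearOrder U]

theorem b2_join (G : SimpleGraph V) (H : SimpleGraph U) (T : Finset V) (S : Finset U) :
    @b2 (V ⊕ U) _ (ordSum V U) (join G H) (T.disjSum S) = b2 G T * b2 H S := by
  letI oo : LinearOrder (V ⊕ U) := ordSum V U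
  apply le_antisymm
  · refine b2_le (mul_nonneg (b2_nonneg T) (b2_nonneg S)) fun x hx hn => ?_
    rw [Finset.card_disjSum] at hx
    obtain ⟨h1, h2⟩ := slices G H _ x hx
    have hy := h2 1 T S.card rfl
    have k1 := le_b2 (T := S) hy
    simp only [map_one, mul_one] at k1
    refine k1.trans ?_
    rw [mul_comm (b2 G T)]
    refine mul_le_mul_of_nonneg_left ?_ (b2_nonneg S)
    -- the norm of the slice
    have hsum : Summable fun z : (W H × Finset U) × (W G × Finset V) =>
        (x (iR G H z.1.1 * iL G H z.2.1) (z.2.2.disjSum z.1.2)) ^ 2 := by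
      refine hx.summable.comp_injective (i := fun z : (W H × Finset U) × (W G × Finset V) =>
        (iR G H z.1.1 * iL G H z.2.1, z.2.2.disjSum z.1.2)) ?_
      rintro ⟨⟨a, A⟩, b, B⟩ ⟨⟨a', A'⟩, b', B'⟩ e
      simp only [Prod.mk.injEq, Finset.disjSum_inj] at e
      obtain ⟨e1, e2, e3⟩ := e
      have f1 := congrArg (prL G H) e1
      have f2 := congrArg (prR G H) e1
      simp only [map_mul, prL_iR, prL_iL, prR_iL, prR_iR, one_mul, mul_one] at f1 f2
      rw [f1, f2, e2, e3]
    have hle : ∑' z : (W H × Finset U) × (W G × Finset V),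
        (x (iR G H z.1.1 * iL G H z.2.1) (z.2.2.disjSum z.1.2)) ^ 2 ≤ 1 := by
      refine le_trans ?_ hn
      refine tsum_comp_le_tsum_of_inj hx.summable (fun _ => sq_nonneg _)
        (i := fun z : (W H × Finset U) × (W G × Finset V) =>
        (iR G H z.1.1 * iL G H z.2.1, z.2.2.disjSum z.1.2)) ?_
      rintro ⟨⟨a, A⟩, b, B⟩ ⟨⟨a', A'⟩, b', B'⟩ e
      simp only [Prod.mk.injEq, Finset.disjSum_inj] at e
      obtain ⟨e1, e2, e3⟩ := e
      have f1 := congrArg (prL G H) e1
      have f2 := congrArg (prR G H) e1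
      simp only [map_mul, prL_iR, prL_iL, prR_iL, prR_iR, one_mul, mul_one] at f1 f2
      rw [f1, f2, e2, e3]
    rw [hsum.tsum_prod] at hle
    have hs2 := hsum.prod
    calc nrm H (fun h S => x (1 * iR G H h) (T.disjSum S))
        ≤ ∑' z : W H × Finset U, b2 G T * ∑' y : W G × Finset V,
            (x (iR G H z.1 * iL G H y.1) (y.2.disjSum z.2)) ^ 2 := by
          refine Summable.tsum_le_tsum (fun z => ?_) hy.summable (hs2.mul_left _)
          show (x (1 * iR G H z.1) (T.disjSum z.2)) ^ 2 ≤ b2 G T * ∑' y : W G × Finset V,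
            (x (iR G H z.1 * iL G H y.1) (y.2.disjSum z.2)) ^ 2
          by_cases hz : z.2.card = S.card
          · have h3 := h1 (iR G H z.1) z.2 T.card (by rw [hz])
            have h4 := le_b2 (T := T) h3
            simp only [map_one, mul_one] at h4
            rw [one_mul]
            exact h4
          · have h3 : x (1 * iR G H z.1) (T.disjSum z.2) = 0 := by
              refine hx.supp _ _ fun h => hz ?_
              have := h.2
              rw [Finset.card_disjSum] at this
              omega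
            rw [h3]
            have : 0 ≤ ∑' y : W G × Finset V, (x (iR G H z.1 * iL G H y.1) (y.2.disjSum z.2)) ^ 2 :=
              tsum_nonneg fun _ => sq_nonneg _
            have h5 := mul_nonneg (b2_nonneg (G := G) T) this
            simpa using h5
      _ = b2 G T * ∑' z : W H × Finset U, ∑' y : W G × Finset V,
            (x (iR G H z.1 * iL G H y.1) (y.2.disjSum z.2)) ^ 2 := tsum_mul_left
      _ ≤ b2 G T * 1 := mul_le_mul_of_nonneg_left hle (b2_nonneg T)
      _ = b2 G T := mul_one _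
  · have key : ∀ c : W G → Finset V → ℝ, IsHarm G T.card c → nrm G c ≤ 1 →
        ∀ d : W H → Finset U → ℝ, IsHarm H S.card d → nrm H d ≤ 1 →
        (c 1 T) ^ 2 * (d 1 S) ^ 2 ≤ b2 (join G H) (T.disjSum S) := by
      intro c hc hnc d hd hnd
      refine le_csSup (b2_bdd _) ⟨cp G H c d, ?_, ?_, ?_⟩
      · rw [Finset.card_disjSum]
        exact harm_prod G H _ _ c d hc hd
      · have h1 : Summable fun z : (W G × Finset V) × (W H × Finset U) =>
            (c z.1.1 z.1.2) ^ 2 * (d z.2.1 z.2.2) ^ 2 :=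
          hc.summable.mul_of_nonneg hd.summable (fun _ => sq_nonneg _) (fun _ => sq_nonneg _)
        have h2 : ∑' z : W (join G H) × Finset (V ⊕ U), (cp G H c d z.1 z.2) ^ 2 ≤
            ∑' z : (W G × Finset V) × (W H × Finset U), (c z.1.1 z.1.2) ^ 2 * (d z.2.1 z.2.2) ^ 2 := by
          refine le_trans (le_of_eq ?_) (tsum_comp_le_tsum_of_inj h1
            (fun _ => mul_nonneg (sq_nonneg _) (sq_nonneg _)) (key_inj G H))
          refine tsum_congr fun z => ?_
          simp only [Function.comp, cp, mul_pow]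
        refine h2.trans ?_
        rw [h1.tsum_prod]
        have h3 : ∀ z : W G × Finset V, ∑' y : W H × Finset U, (c z.1 z.2) ^ 2 * (d y.1 y.2) ^ 2 =
            (c z.1 z.2) ^ 2 * nrm H d := fun z => tsum_mul_left
        rw [tsum_congr h3, tsum_mul_right]
        calc nrm G c * nrm H d ≤ 1 * 1 := mul_le_mul hnc hnd (nrm_nonneg _) zero_le_one
          _ = 1 := one_mul 1
      · rw [cp_apply, map_one, map_one, mul_pow]
    have h0 : 0 ≤ b2 (join G H) (T.disjSum S) := b2_nonneg _
    have key2 : ∀ d : W H → Finset U → ℝ, IsHarm H S.card d → nrm H d ≤ 1 →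
        b2 G T * (d 1 S) ^ 2 ≤ b2 (join G H) (T.disjSum S) := by
      intro d hd hnd
      rcases (sq_nonneg (d 1 S)).eq_or_lt with h | h
      · rw [← h, mul_zero]; exact h0
      · rw [← le_div_iff₀ h]
        refine b2_le (div_nonneg h0 h.le) fun c hc hnc => ?_
        rw [le_div_iff₀ h]
        exact key c hc hnc d hd hnd
    rcases (b2_nonneg (G := G) T).eq_or_lt with h | h
    · rw [← h, zero_mul]; exact h0
    · rw [mul_comm, ← le_div_iff₀ h]
      refine b2_le (div_nonneg h0 h.le) fun d hd hnd => ?_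
      rw [le_div_iff₀ h, mul_comm]
      exact key2 d hd hnd

end Two

end Pool.Agent.P8H64.TP
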