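import Pool.Agent.TH652.JoinL2
import Pool.Agent.TH652.QDef

/-!
# Classes of flag homology spheres closed under joins
-/

set_option autoImplicit false

namespace Pool.Agent.P8H64.TP

open Pool.Agent.TH652.Join Pool.Agent.TH652.Above

/-- A class of graphs `G` whose flag complexes are homology spheres (and homology manifolds) of dimension `n - 1`
(`C n V G`), which is closed under joins and contains the pentagon. For example all flag homology spheres, or those
which are combinatorial spheres. -/
structure JoinClass (C : ∀ (n : ℕ) (V : Type) [Fintype V] [LinearOrder V], SimpleGraph V → Prop) : Prop where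
  /-- the members are homology spheres -/
  sph : ∀ (n : ℕ) (V : Type) [Fintype V] [LinearOrder V] (G : SimpleGraph V), C n V G → HSph n G
  /-- joins; the vertex set `V ⊕ U` has the order with all elements of `V` before all elements of `U` -/
  join : ∀ (m n : ℕ) (V U : Type) [Fintype V] [LinearOrder V] [Fintype U] [LinearOrder U] (G : SimpleGraph V)
    (H : SimpleGraph U), C m V G → C n U H → @C (m + n) (V ⊕ U) _ (ordSum V U) (join G H)
  /-- the pentagon -/
  pent : C 2 (Fin 5) (SimpleGraph.cycleGraph 5)

end Pool.Agent.P8H64.TP
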