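import Pool.Agent.P8H64.TP.Hodge

/-!
# Joins of flag homology spheres
-/

set_option autoImplicit false
set_option linter.unusedSectionVars false
set_option linter.style.haveILetI false

namespace Pool.Agent.P8H64.TP

open Pool.Agent.W907.SG Pool.Agent.W907.SM Pool.Agent.TH652.Join Pool.Agent.TH652.Above

theorem card_le {V : Type} [Fintype V] [LinearOrder V] {G : SimpleGraph V} {n : ℕ} (hS : HSph n G) (T : Finset V)
    (hT : G.IsClique (T : Set V)) : T.card ≤ n := by
  classical
  obtain ⟨S, hS0, hmax⟩ := Set.Finite.exists_maximalFor Finset.card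
    {S : Finset V | T ⊆ S ∧ G.IsClique (S : Set V)} (Set.toFinite _) ⟨T, Finset.Subset.refl T, hT⟩
  obtain ⟨hTS, hSc⟩ := hS0
  have hlk : lk G S = ∅ := by
    rw [Set.eq_empty_iff_forall_notMem]
    intro v hv
    have hvS : v ∉ S := fun h => (hv v h).ne rfl
    have h1 : G.IsClique ((insert v S : Finset V) : Set V) := by
      rw [Finset.coe_insert]
      exact hSc.insert fun u hu _ => hv u hu
    have h2 := hmax ⟨hTS.trans (Finset.subset_insert v S), h1⟩ (by
      rw [Finset.card_insert_of_notMem hvS]; omega)
    rw [Finset.card_insert_of_notMem hvS] at h2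
    omega
  have hn : S.card = n := by
    by_contra hcon
    have h1 := hS S hSc 0
    rw [if_neg (by omega), beta_eq, Submodule.finrank_eq_zero, hlk] at h1
    have hcZ : (fun T : Finset V => if T = ∅ then (1 : ℝ) else 0) ∈ HH G ∅ 0 := by
      refine mem_HH.2 ⟨fun U hU => ?_, fun U => ?_, fun U _ hU => ?_⟩
      · rw [if_neg]
        rintro rfl
        exact hU ⟨by simp, by simp, by simp⟩
      · refine Finset.sum_eq_zero fun v _ => ?_
        rw [if_neg (Finset.insert_ne_empty v U), mul_zero]
      · rw [Set.subset_empty_iff, Finset.coe_eq_empty] at hU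
        rw [hU, cob, Finset.sum_empty]
    rw [h1, Submodule.mem_bot] at hcZ
    have h3 := congrFun hcZ ∅
    simp at h3
  exact hn ▸ Finset.card_le_card hTS

/-- the join of two flag homology spheres is a flag homology sphere -/
theorem hsph_join {V U : Type} [Fintype V] [LinearOrder V] [Fintype U] [LinearOrder U] {G : SimpleGraph V}
    {H : SimpleGraph U} {m n : ℕ} (hG : HSph m G) (hH : HSph n H) :
    @HSph (m + n) (V ⊕ U) _ (ordSum V U) (join G H) := by
  letI oo : LinearOrder (V ⊕ U) := ordSum V U
  intro F hF i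
  rw [← Finset.toLeft_disjSum_toRight (u := F)] at hF ⊢
  generalize F.toLeft = T at hF ⊢
  generalize F.toRight = S at hF ⊢
  rw [clique_join] at hF
  have h1 := card_le hG T hF.1
  have h2 := card_le hH S hF.2
  have h3 := kunneth G H (lk G T) (lk H S) (m - T.card) (n - S.card)
    (fun p => by
      rw [hG T hF.1 p]
      by_cases h : p + T.card = m
      · rw [if_pos h, if_pos (by omega)]
      · rw [if_neg h, if_neg (by omega)])
    (fun p => by
      rw [hH S hF.2 p]
      by_cases h : p + S.card = n
      · rw [if_pos h, if_pos (by omega)]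
      · rw [if_neg h, if_neg (by omega)]) i
  rw [lk_join, Finset.card_disjSum]
  refine Eq.trans h3 ?_
  by_cases h : i + (T.card + S.card) = m + n
  · rw [if_pos h, if_pos (by omega)]
  · rw [if_neg h, if_neg (by omega)]

/-- the empty complex -/
theorem hsph_empty : HSph 0 (⊥ : SimpleGraph Empty) := by
  intro T hT i
  have hT0 : T = ∅ := Finset.eq_empty_of_isEmpty T
  subst hT0
  rw [beta_eq, Finset.card_empty, add_zero]
  have hall : ∀ T : Finset Empty, T = ∅ := fun T => Finset.eq_empty_of_isEmpty T
  by_cases hi : i = 0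
  · subst hi
    rw [if_pos rfl]
    refine finrank_eq_one_iff'.2 ⟨⟨fun _ => 1, mem_HH.2 ⟨fun T hT => ?_, fun T => ?_, fun T _ _ => ?_⟩⟩, ?_, ?_⟩
    · rw [hall T] at hT
      exact absurd ⟨by simp, by simp, by simp⟩ hT
    · rw [Finset.sum_of_isEmpty]
    · rw [cob, Finset.sum_of_isEmpty]
    · intro h
      have := congrFun (congrArg Subtype.val h) ∅
      simp at this
    · rintro ⟨c, hc⟩
      refine ⟨c ∅, Subtype.ext (funext fun T => ?_)⟩
      rw [hall T]
      simp
  · rw [if_neg hi, Submodule.finrank_eq_zero, eq_bot_iff]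
    intro c hc
    rw [Submodule.mem_bot]
    funext T
    refine (mem_HH.1 hc).1 T ?_
    rintro ⟨-, -, h⟩
    rw [hall T] at h
    simp at h
    exact hi h.symm

end Pool.Agent.P8H64.TP
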