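import Pool.Agent.TH652.JoinL2
import Pool.Agent.TH652.QDef

/-!
# Finite dimensional Hodge theory and joins of homology spheres
-/

set_option autoImplicit false
set_option linter.unusedSectionVars false
set_option linter.style.haveILetI false

namespace Pool.Agent.P8H64.TP

open Pool.Agent.W907.SG Pool.Agent.W907.SM Pool.Agent.TH652.Join Pool.Agent.TH652.Above
open scoped InnerProductSpace

section One
variable {V : Type} [Fintype V] [LinearOrder V]

/-- the coboundary -/
def cob (c : Finset V → ℝ) (T : Finset V) : ℝ := ∑ t ∈ T, (sg t (T.erase t) : ℝ) * c (T.erase t)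

theorem mem_ZZ {G : SimpleGraph V} {A : Set V} {i : ℕ} {c : Finset V → ℝ} :
    c ∈ ZZ G (fun _ => (- LinearMap.id : ℝ →ₗ[ℝ] ℝ)) A ∅ i ↔
      (∀ T : Finset V, ¬ (G.IsClique (T : Set V) ∧ (T : Set V) ⊆ A ∧ T.card = i) → c T = 0) ∧
      ∀ T : Finset V, ∑ v ∈ Tᶜ, (sg v T : ℝ) * c (insert v T) = 0 := by
  constructor
  · rintro ⟨h1, h2⟩
    refine ⟨h1.1, fun T => ?_⟩
    have h3 := congrFun (LinearMap.mem_ker.1 h2) T
    rw [bd_apply] at h3
    refine Eq.trans (Finset.sum_congr rfl fun v _ => ?_) h3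
    rw [zsmul_eq_mul]
  · rintro ⟨h1, h2⟩
    refine ⟨⟨h1, fun T t _ => by simp⟩, LinearMap.mem_ker.2 (funext fun T => ?_)⟩
    rw [bd_apply]
    refine Eq.trans (Finset.sum_congr rfl fun v _ => ?_) (h2 T)
    rw [zsmul_eq_mul]

/-- harmonic chains -/
def HH (G : SimpleGraph V) (A : Set V) (i : ℕ) : Submodule ℝ (Finset V → ℝ) where
  carrier := {c | c ∈ ZZ G (fun _ => (- LinearMap.id : ℝ →ₗ[ℝ] ℝ)) A ∅ i ∧
    ∀ T : Finset V, G.IsClique (T : Set V) → (T : Set V) ⊆ A → cob c T = 0}
  add_mem' := by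
    rintro c d ⟨h1, h2⟩ ⟨h3, h4⟩
    refine ⟨Submodule.add_mem _ h1 h3, fun T hT hA => ?_⟩
    have e : cob (c + d) T = cob c T + cob d T := by
      unfold cob
      rw [← Finset.sum_add_distrib]
      exact Finset.sum_congr rfl fun _ _ => by simp [mul_add]
    rw [e, h2 T hT hA, h4 T hT hA, add_zero]
  zero_mem' := ⟨Submodule.zero_mem _, fun T _ _ => by simp [cob]⟩
  smul_mem' := by
    rintro a c ⟨h1, h2⟩
    refine ⟨Submodule.smul_mem _ _ h1, fun T hT hA => ?_⟩
    have e : cob (a • c) T = a * cob c T := by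
      unfold cob
      rw [Finset.mul_sum]
      refine Finset.sum_congr rfl fun _ _ => ?_
      simp only [Pi.smul_apply, smul_eq_mul]
      ring
    rw [e, h2 T hT hA, mul_zero]

theorem mem_HH {G : SimpleGraph V} {A : Set V} {i : ℕ} {c : Finset V → ℝ} :
    c ∈ HH G A i ↔
      (∀ T : Finset V, ¬ (G.IsClique (T : Set V) ∧ (T : Set V) ⊆ A ∧ T.card = i) → c T = 0) ∧
      (∀ T : Finset V, ∑ v ∈ Tᶜ, (sg v T : ℝ) * c (insert v T) = 0) ∧
      ∀ T : Finset V, G.IsClique (T : Set V) → (T : Set V) ⊆ A → cob c T = 0 := by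
  show (_ ∧ _) ↔ _
  rw [mem_ZZ, and_assoc]

theorem adj (c d : Finset V → ℝ) : ∑ T, bd ℝ d T * c T = ∑ T, d T * cob c T := by
  have h1 : ∀ T : Finset V, bd ℝ d T * c T = ∑ v ∈ Tᶜ, (sg v T : ℝ) * d (insert v T) * c T := by
    intro T
    rw [bd_apply, Finset.sum_mul]
    refine Finset.sum_congr rfl fun v _ => ?_
    rw [zsmul_eq_mul]
  rw [Finset.sum_congr rfl fun T _ => h1 T,
    sum_ins (fun v T => (sg v T : ℝ) * d (insert v T) * c T)]
  refine Finset.sum_congr rfl fun T _ => ?_
  rw [cob, Finset.mul_sum]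
  refine Finset.sum_congr rfl fun t ht => ?_
  rw [Finset.insert_erase ht]
  ring

theorem beta_eq (G : SimpleGraph V) (A : Set V) (i : ℕ) :
    beta G (fun _ => (- LinearMap.id : ℝ →ₗ[ℝ] ℝ)) A ∅ i = Module.finrank ℝ (HH G A i) := by
  classical
  let e : (Finset V → ℝ) ≃ₗ[ℝ] EuclideanSpace ℝ (Finset V) := (WithLp.linearEquiv 2 ℝ (Finset V → ℝ)).symm
  have he : ∀ a b : Finset V → ℝ, ⟪e a, e b⟫_ℝ = ∑ T, a T * b T := by
    intro a b
    rw [PiLp.inner_apply]
    refine Finset.sum_congr rfl fun T _ => ?_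
    show ⟪a T, b T⟫_ℝ = _
    simp [mul_comm]
  set B := BB G (fun _ => (- LinearMap.id : ℝ →ₗ[ℝ] ℝ)) A ∅ i with hB
  set Z := ZZ G (fun _ => (- LinearMap.id : ℝ →ₗ[ℝ] ℝ)) A ∅ i with hZ
  have hle : B.map e.toLinearMap ≤ Z.map e.toLinearMap := Submodule.map_mono (BB_le_ZZ _ _ _ _ _)
  have h1 := Submodule.finrank_add_inf_finrank_orthogonal hle
  have h2 : (B.map e.toLinearMap)ᗮ ⊓ Z.map e.toLinearMap = (HH G A i).map e.toLinearMap := by
    ext x
    constructor
    · rintro ⟨h3, c, hc, rfl⟩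
      refine ⟨c, ⟨hc, fun T hT hA => ?_⟩, rfl⟩
      have hc' := hc
      rw [hZ, SetLike.mem_coe, mem_ZZ] at hc'
      by_cases hi : T.card = i + 1
      · have hk : Pi.single T (1 : ℝ) ∈ KK G (fun _ => (- LinearMap.id : ℝ →ₗ[ℝ] ℝ)) A ∅ (i + 1) := by
          refine ⟨fun T' hT' => ?_, fun T' t _ => by simp⟩
          rw [Pi.single_apply, if_neg]
          rintro rfl
          exact hT' ⟨hT, hA, hi⟩
        have h4 := h3 (e (bd ℝ (Pi.single T (1 : ℝ)))) ⟨_, ⟨_, hk, rfl⟩, rfl⟩
        have h5 : ⟪e (bd ℝ (Pi.single T (1 : ℝ))), e c⟫_ℝ = 0 := h4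
        rw [he, adj] at h5
        rw [Finset.sum_eq_single T] at h5
        · simpa using h5
        · intro T' _ hne
          simp [hne]
        · intro h; exact absurd (Finset.mem_univ _) h
      · unfold cob
        refine Finset.sum_eq_zero fun t ht => ?_
        rw [hc'.1, mul_zero]
        rintro ⟨-, -, h6⟩
        have := Finset.card_erase_add_one ht
        omega
    · rintro ⟨c, ⟨hc, hc2⟩, rfl⟩
      refine ⟨?_, c, hc, rfl⟩
      rintro _ ⟨_, ⟨d, hd, rfl⟩, rfl⟩
      show ⟪e (bd ℝ d), e c⟫_ℝ = 0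
      rw [he, adj]
      refine Finset.sum_eq_zero fun T _ => ?_
      by_cases hT : G.IsClique (T : Set V) ∧ (T : Set V) ⊆ A ∧ T.card = i + 1
      · rw [hc2 T hT.1 hT.2.1, mul_zero]
      · rw [hd.1 T hT, zero_mul]
  rw [h2, LinearEquiv.finrank_map_eq, LinearEquiv.finrank_map_eq, LinearEquiv.finrank_map_eq] at h1
  show Module.finrank ℝ Z - Module.finrank ℝ B = _
  omega

end One

section Two
variable {V U : Type} [Fintype V] [LinearOrder V] [Fintype U] [LinearOrder U]

/-- the union of `A` and `B` in the disjoint union -/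
def uni (A : Set V) (B : Set U) : Set (V ⊕ U) := {x | Sum.elim (fun v => v ∈ A) (fun u => u ∈ B) x}

theorem sub_uni (A : Set V) (B : Set U) (T : Finset V) (S : Finset U) :
    ((T.disjSum S : Finset (V ⊕ U)) : Set (V ⊕ U)) ⊆ uni A B ↔ (T : Set V) ⊆ A ∧ (S : Set U) ⊆ B := by
  constructor
  · intro h
    exact ⟨fun v hv => h (a := Sum.inl v) (by simpa using hv), fun u hu => h (a := Sum.inr u) (by simpa using hu)⟩
  · rintro ⟨h1, h2⟩ (v | u) hx
    · exact h1 (by simpa using hx)
    · exact h2 (by simpa using hx)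

theorem HH_slices (G : SimpleGraph V) (H : SimpleGraph U) (A : Set V) (B : Set U) (k : ℕ)
    (c : Finset (V ⊕ U) → ℝ) (hc : c ∈ @HH (V ⊕ U) _ (ordSum V U) (join G H) (uni A B) k) :
    (∀ (S : Finset U) (p : ℕ), p + S.card = k → (fun T => c (T.disjSum S)) ∈ HH G A p) ∧
    (∀ (T : Finset V) (q : ℕ), T.card + q = k → (fun S => c (T.disjSum S)) ∈ HH H B q) := by
  letI oo : LinearOrder (V ⊕ U) := ordSum V U
  rw [mem_HH] at hc
  obtain ⟨c1, c2, c3⟩ := hc
  let x : Finset V → Finset U → ℝ := fun T S => c (T.disjSum S)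
  have hsp := split (V := V) (U := U) (E := ℝ) (fun _ => - LinearMap.id) (fun _ => - LinearMap.id)
    (fun v a b => by simp) (fun v a b => by simp) (fun v u a => by simp) x
    (fun T S t _ => by simp) (fun T S t _ => by simp)
    (fun T => G.IsClique (T : Set V) ∧ (T : Set V) ⊆ A) (fun S => H.IsClique (S : Set U) ∧ (S : Set U) ⊆ B)
    (fun T S hTS => by
      refine c1 _ fun h => hTS ?_
      rw [clique_join, sub_uni] at h
      exact ⟨⟨h.1.1, h.2.1.1⟩, h.1.2, h.2.1.2⟩)
    (fun T S => by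
      have h1 := c2 (T.disjSum S)
      rw [compl_disjSum, Finset.sum_disjSum] at h1
      simp only [insert_inl, insert_inr, sg_inl, sg_inr] at h1
      rw [d1, d2, smul_eq_mul, Finset.mul_sum]
      refine Eq.trans ?_ h1
      congr 1
      refine Finset.sum_congr rfl fun u _ => ?_
      rw [smul_eq_mul]
      push_cast
      ring)
    (fun T S hT hS => by
      have h1 := c3 (T.disjSum S) ((clique_join G H T S).2 ⟨hT.1, hS.1⟩) ((sub_uni A B T S).2 ⟨hT.2, hS.2⟩)
      rw [cob, Finset.sum_disjSum] at h1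
      simp only [erase_inl, erase_inr, sg_inl, sg_inr] at h1
      have h2 : e1 (fun _ => - LinearMap.id) x T S = 2 * ∑ t ∈ T, (sg t (T.erase t) : ℝ) * c ((T.erase t).disjSum S) := by
        rw [e1, Finset.mul_sum]
        refine Finset.sum_congr rfl fun t _ => ?_
        simp only [smul_eq_mul, LinearMap.neg_apply, LinearMap.id_apply, x]
        ring
      have h3 : e2 (fun _ => - LinearMap.id) x T S =
          2 * ∑ t ∈ S, (sg t (S.erase t) : ℝ) * c (T.disjSum (S.erase t)) := by
        rw [e2, Finset.mul_sum]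
        refine Finset.sum_congr rfl fun t _ => ?_
        simp only [smul_eq_mul, LinearMap.neg_apply, LinearMap.id_apply, x]
        ring
      have h4 : ∑ t ∈ S, (((-1) ^ T.card * sg t (S.erase t) : ℤ) : ℝ) * c (T.disjSum (S.erase t)) =
          (-1) ^ T.card * ∑ t ∈ S, (sg t (S.erase t) : ℝ) * c (T.disjSum (S.erase t)) := by
        rw [Finset.mul_sum]
        refine Finset.sum_congr rfl fun t _ => ?_
        push_cast; ring
      rw [h4] at h1
      rw [h2, h3, smul_eq_mul]
      linear_combination 2 * h1)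
  obtain ⟨y1, y2, y3, y4⟩ := hsp
  refine ⟨fun S p hp => mem_HH.2 ⟨fun T hT => ?_, fun T => ?_, fun T hT hA => ?_⟩,
    fun T q hq => mem_HH.2 ⟨fun S hS => ?_, fun S => ?_, fun S hS hB => ?_⟩⟩
  · refine c1 _ fun h => hT ?_
    rw [clique_join, sub_uni, Finset.card_disjSum] at h
    exact ⟨h.1.1, h.2.1.1, by omega⟩
  · have := y1 T S
    rw [d1] at this
    exact this
  · by_cases hS : H.IsClique (S : Set U) ∧ (S : Set U) ⊆ B
    · have h1 := y3 T S ⟨hT, hA⟩ hS
      have h2 : e1 (fun _ => - LinearMap.id) x T S = 2 * cob (fun T => c (T.disjSum S)) T := by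
        rw [e1, cob, Finset.mul_sum]
        refine Finset.sum_congr rfl fun t _ => ?_
        simp only [smul_eq_mul, LinearMap.neg_apply, LinearMap.id_apply, x]
        ring
      rw [h2] at h1
      linarith
    · unfold cob
      refine Finset.sum_eq_zero fun t _ => ?_
      have h5 : c ((T.erase t).disjSum S) = 0 := by
        refine c1 _ ?_
        rw [clique_join, sub_uni]
        exact fun h => hS ⟨h.1.2, h.2.1.2⟩
      show _ * c ((T.erase t).disjSum S) = 0
      rw [h5, mul_zero]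
  · refine c1 _ fun h => hS ?_
    rw [clique_join, sub_uni, Finset.card_disjSum] at h
    exact ⟨h.1.2, h.2.1.2, by omega⟩
  · have := y2 T S
    rw [d2] at this
    exact this
  · by_cases hT : G.IsClique (T : Set V) ∧ (T : Set V) ⊆ A
    · have h1 := y4 T S hT ⟨hS, hB⟩
      have h2 : e2 (fun _ => - LinearMap.id) x T S = 2 * cob (fun S => c (T.disjSum S)) S := by
        rw [e2, cob, Finset.mul_sum]
        refine Finset.sum_congr rfl fun t _ => ?_
        simp only [smul_eq_mul, LinearMap.neg_apply, LinearMap.id_apply, x]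
        ring
      rw [h2] at h1
      linarith
    · unfold cob
      refine Finset.sum_eq_zero fun t _ => ?_
      have h5 : c (T.disjSum (S.erase t)) = 0 := by
        refine c1 _ ?_
        rw [clique_join, sub_uni]
        exact fun h => hT ⟨h.1.1, h.2.1.1⟩
      show _ * c (T.disjSum (S.erase t)) = 0
      rw [h5, mul_zero]

theorem HH_prod (G : SimpleGraph V) (H : SimpleGraph U) (A : Set V) (B : Set U) (a b : ℕ)
    (g : Finset V → ℝ) (h : Finset U → ℝ) (hg : g ∈ HH G A a) (hh : h ∈ HH H B b) :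
    (fun T : Finset (V ⊕ U) => g T.toLeft * h T.toRight) ∈
      @HH (V ⊕ U) _ (ordSum V U) (join G H) (uni A B) (a + b) := by
  letI oo : LinearOrder (V ⊕ U) := ordSum V U
  rw [mem_HH] at hg hh ⊢
  obtain ⟨g1, g2, g3⟩ := hg
  obtain ⟨h1, h2, h3⟩ := hh
  have hL : ∀ (T : Finset V) (S : Finset U), (T.disjSum S).toLeft = T := fun T S => by ext x; simp
  have hR : ∀ (T : Finset V) (S : Finset U), (T.disjSum S).toRight = S := fun T S => by ext x; simp
  refine ⟨fun T' hT => ?_, fun T' => ?_, fun T' hT hA => ?_⟩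
  · rw [← Finset.toLeft_disjSum_toRight (u := T')] at hT
    generalize T'.toLeft = T at hT ⊢
    generalize T'.toRight = S at hT ⊢
    rw [clique_join, sub_uni, Finset.card_disjSum] at hT
    by_cases k1 : G.IsClique (T : Set V) ∧ (T : Set V) ⊆ A ∧ T.card = a
    · rw [h1 S, mul_zero]
      rintro ⟨k2, k3, k4⟩
      exact hT ⟨⟨k1.1, k2⟩, ⟨k1.2.1, k3⟩, by omega⟩
    · rw [g1 T k1, zero_mul]
  · rw [← Finset.toLeft_disjSum_toRight (u := T')]
    generalize T'.toLeft = T
    generalize T'.toRight = S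
    rw [compl_disjSum, Finset.sum_disjSum]
    simp only [insert_inl, insert_inr, sg_inl, sg_inr, hL, hR]
    have e1 : ∑ v ∈ Tᶜ, (sg v T : ℝ) * (g (insert v T) * h S) = (∑ v ∈ Tᶜ, (sg v T : ℝ) * g (insert v T)) * h S := by
      rw [Finset.sum_mul]
      exact Finset.sum_congr rfl fun _ _ => by ring
    have e2 : ∑ u ∈ Sᶜ, (((-1) ^ T.card * sg u S : ℤ) : ℝ) * (g T * h (insert u S)) =
        ((-1) ^ T.card * g T) * ∑ u ∈ Sᶜ, (sg u S : ℝ) * h (insert u S) := by
      rw [Finset.mul_sum]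
      refine Finset.sum_congr rfl fun _ _ => ?_
      push_cast; ring
    rw [e1, e2, g2, h2]; ring
  · rw [← Finset.toLeft_disjSum_toRight (u := T')] at hT hA ⊢
    generalize T'.toLeft = T at hT hA ⊢
    generalize T'.toRight = S at hT hA ⊢
    rw [clique_join] at hT
    rw [sub_uni] at hA
    rw [cob, Finset.sum_disjSum]
    simp only [erase_inl, erase_inr, sg_inl, sg_inr, hL, hR]
    have e1 : ∑ t ∈ T, (sg t (T.erase t) : ℝ) * (g (T.erase t) * h S) = cob g T * h S := by
      rw [cob, Finset.sum_mul]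
      exact Finset.sum_congr rfl fun _ _ => by ring
    have e2 : ∑ t ∈ S, (((-1) ^ T.card * sg t (S.erase t) : ℤ) : ℝ) * (g T * h (S.erase t)) =
        ((-1) ^ T.card * g T) * cob h S := by
      rw [cob, Finset.mul_sum]
      refine Finset.sum_congr rfl fun _ _ => ?_
      push_cast; ring
    rw [e1, e2, g3 T hT.1 hA.1, h3 S hT.2 hA.2]; ring

theorem kunneth (G : SimpleGraph V) (H : SimpleGraph U) (A : Set V) (B : Set U) (a b : ℕ)
    (hA : ∀ p, beta G (fun _ => (- LinearMap.id : ℝ →ₗ[ℝ] ℝ)) A ∅ p = if p = a then 1 else 0)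
    (hB : ∀ q, beta H (fun _ => (- LinearMap.id : ℝ →ₗ[ℝ] ℝ)) B ∅ q = if q = b then 1 else 0) (k : ℕ) :
    (letI : LinearOrder (V ⊕ U) := ordSum V U
     beta (join G H) (fun _ => (- LinearMap.id : ℝ →ₗ[ℝ] ℝ)) (uni A B) ∅ k) =
      if k = a + b then 1 else 0 := by
  letI oo : LinearOrder (V ⊕ U) := ordSum V U
  simp only [beta_eq] at hA hB
  rw [beta_eq]
  have zA : ∀ p, p ≠ a → ∀ c ∈ HH G A p, c = 0 := by
    intro p hp c hc
    have h1 := hA p
    rw [if_neg hp] at h1
    have h2 := Submodule.finrank_eq_zero.1 h1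
    rw [h2] at hc
    exact (Submodule.mem_bot ℝ).1 hc
  have zB : ∀ p, p ≠ b → ∀ c ∈ HH H B p, c = 0 := by
    intro p hp c hc
    have h1 := hB p
    rw [if_neg hp] at h1
    have h2 := Submodule.finrank_eq_zero.1 h1
    rw [h2] at hc
    exact (Submodule.mem_bot ℝ).1 hc
  by_cases hk : k = a + b
  · subst hk
    rw [if_pos rfl]
    have fA := hA a
    have fB := hB b
    rw [if_pos rfl] at fA fB
    obtain ⟨g, hg0, hg⟩ := finrank_eq_one_iff'.1 fA
    obtain ⟨h, hh0, hh⟩ := finrank_eq_one_iff'.1 fB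
    have hg1 : (g : Finset V → ℝ) ≠ 0 := fun e => hg0 (Subtype.ext e)
    have hh1 : (h : Finset U → ℝ) ≠ 0 := fun e => hh0 (Subtype.ext e)
    obtain ⟨T0, hT0⟩ := Function.ne_iff.1 hg1
    obtain ⟨S0, hS0⟩ := Function.ne_iff.1 hh1
    have hT0' : T0.card = a := by
      by_contra hne
      exact hT0 ((mem_HH.1 g.2).1 T0 fun h => hne h.2.2)
    refine finrank_eq_one_iff'.2 ⟨⟨_, HH_prod G H A B a b g h g.2 h.2⟩, ?_, ?_⟩
    · intro e
      have e1 := congrFun (congrArg Subtype.val e) (T0.disjSum S0)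
      have hL : (T0.disjSum S0).toLeft = T0 := by ext x; simp
      have hR : (T0.disjSum S0).toRight = S0 := by ext x; simp
      simp only [hL, hR] at e1
      have e2 : (g : Finset V → ℝ) T0 * (h : Finset U → ℝ) S0 = 0 := e1
      rcases mul_eq_zero.1 e2 with e3 | e3
      · exact hT0 e3
      · exact hS0 e3
    · rintro ⟨c, hc⟩
      obtain ⟨s1, s2⟩ := HH_slices G H A B (a + b) c hc
      have t1 := s2 T0 b (by rw [hT0'])
      obtain ⟨μ, hμ⟩ := hh ⟨_, t1⟩
      refine ⟨μ / (g : Finset V → ℝ) T0, Subtype.ext (funext fun T' => ?_)⟩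
      rw [← Finset.toLeft_disjSum_toRight (u := T')]
      generalize T'.toLeft = T
      generalize T'.toRight = S
      have hL : (T.disjSum S).toLeft = T := by ext x; simp
      have hR : (T.disjSum S).toRight = S := by ext x; simp
      show μ / (g : Finset V → ℝ) T0 * ((g : Finset V → ℝ) (T.disjSum S).toLeft *
        (h : Finset U → ℝ) (T.disjSum S).toRight) = c (T.disjSum S)
      rw [hL, hR]
      have hμ2 : ∀ S, μ * (h : Finset U → ℝ) S = c (T0.disjSum S) := fun S =>
        congrFun (congrArg Subtype.val hμ) S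
      have hT0n : (g : Finset V → ℝ) T0 ≠ 0 := hT0
      by_cases hS : S.card = b
      · obtain ⟨l, hl⟩ := hg ⟨_, s1 S a (by rw [hS])⟩
        have hl2 : ∀ T, l * (g : Finset V → ℝ) T = c (T.disjSum S) := fun T =>
          congrFun (congrArg Subtype.val hl) T
        rw [← hl2 T]
        have h5 := hl2 T0
        rw [← hμ2 S] at h5
        field_simp
        linear_combination (-(g : Finset V → ℝ) T) * h5
      · have h4 : (h : Finset U → ℝ) S = 0 := (mem_HH.1 h.2).1 S fun h => hS h.2.2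
        rw [h4, mul_zero, mul_zero]
        by_cases hp : S.card ≤ a + b
        · have h6 := zA (a + b - S.card) (by omega) _ (s1 S (a + b - S.card) (by omega))
          exact (congrFun h6 T).symm
        · refine ((mem_HH.1 hc).1 _ fun h => hp ?_).symm
          have := h.2.2
          rw [Finset.card_disjSum] at this
          omega
  · rw [if_neg hk, Submodule.finrank_eq_zero, eq_bot_iff]
    intro c hc
    rw [Submodule.mem_bot]
    obtain ⟨s1, s2⟩ := HH_slices G H A B k c hc
    funext T'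
    rw [← Finset.toLeft_disjSum_toRight (u := T')]
    generalize T'.toLeft = T
    generalize T'.toRight = S
    by_cases hTS : T.card + S.card = k
    · by_cases hT : T.card = a
      · exact congrFun (zB S.card (by omega) _ (s2 T S.card hTS)) S
      · exact congrFun (zA T.card hT _ (s1 S T.card hTS)) T
    · refine (mem_HH.1 hc).1 _ fun h => hTS ?_
      rw [← h.2.2, Finset.card_disjSum]

theorem lk_join (G : SimpleGraph V) (H : SimpleGraph U) (T : Finset V) (S : Finset U) :
    lk (join G H) (T.disjSum S) = uni (lk G T) (lk H S) := by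
  ext x
  rcases x with v | u
  · constructor
    · intro h t ht
      exact h (Sum.inl t) (Finset.inl_mem_disjSum.2 ht)
    · rintro h (t | t) ht
      · exact h t (Finset.inl_mem_disjSum.1 ht)
      · trivial
  · constructor
    · intro h t ht
      exact h (Sum.inr t) (Finset.inr_mem_disjSum.2 ht)
    · rintro h (t | t) ht
      · trivial
      · exact h t (Finset.inr_mem_disjSum.1 ht)

end Two

end Pool.Agent.P8H64.TP
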