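import Pool.Agent.P8H64.TP.HJ
import Pool.Agent.P8H64.TP.Bet
import Pool.Agent.N496.LT.E1
import Pool.Agent.N13.PL.All

/-!
# The pentagon
-/

set_option autoImplicit false
set_option linter.unusedSectionVars false

namespace Pool.Agent.P8H64.TP

open Pool.Agent.W907.SG Pool.Agent.W907.SM Pool.Agent.TH652.Join Pool.Agent.TH652.Above
open Pool.Agent.N496.LT.E1P

theorem bb_empty {V : Type} [Fintype V] [LinearOrder V] (G : SimpleGraph V) (i : ℕ) :
    bb G ∅ i = if i = 0 then 1 else 0 := by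
  rw [bb, beta_eq]
  have hsup : ∀ T : Finset V, (T : Set V) ⊆ ∅ → T = ∅ := by
    intro T hT
    rwa [Set.subset_empty_iff, Finset.coe_eq_empty] at hT
  by_cases hi : i = 0
  · subst hi
    rw [if_pos rfl]
    have hm : (fun T : Finset V => if T = ∅ then (1 : ℝ) else 0) ∈ HH G ∅ 0 := by
      refine mem_HH.2 ⟨fun U hU => ?_, fun U => ?_, fun U _ hU => ?_⟩
      · rw [if_neg]
        rintro rfl
        exact hU ⟨by simp, by simp, by simp⟩
      · refine Finset.sum_eq_zero fun v _ => ?_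
        rw [if_neg (Finset.insert_ne_empty v U), mul_zero]
      · rw [hsup U hU, cob, Finset.sum_empty]
    refine finrank_eq_one_iff'.2 ⟨⟨_, hm⟩, ?_, ?_⟩
    · intro h
      have := congrFun (congrArg Subtype.val h) ∅
      simp at this
    · rintro ⟨c, hc⟩
      refine ⟨c ∅, Subtype.ext (funext fun T => ?_)⟩
      show c ∅ * (if T = ∅ then (1 : ℝ) else 0) = c T
      by_cases hT : T = ∅
      · rw [hT]; simp
      · rw [if_neg hT, mul_zero]
        refine ((mem_HH.1 hc).1 T fun h => hT (hsup T h.2.1)).symm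
  · rw [if_neg hi, Submodule.finrank_eq_zero, eq_bot_iff]
    intro c hc
    rw [Submodule.mem_bot]
    funext T
    refine (mem_HH.1 hc).1 T ?_
    rintro ⟨-, h1, h⟩
    rw [hsup T h1] at h
    simp at h
    exact hi h.symm

/-- the pentagon -/
abbrev C5 : SimpleGraph (Fin 5) := SimpleGraph.cycleGraph 5

theorem cl5 : ∀ S : Finset (Fin 5), (∀ a ∈ S, ∀ b ∈ S, a ≠ b → C5.Adj a b) →
    S = ∅ ∨ (∃ v, S = {v}) ∨ ∃ v, S = {v, v + 1} := by
  decide +kernel

theorem pair5 (a b : Fin 5) (hab : a ≠ b) (hn : ¬ C5.Adj a b) :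
    bb C5 {a, b} 0 = 0 ∧ ∀ i, bb C5 {a, b} (i + 1) = if i = 0 then 1 else 0 := by
  have h := bb_susp (G := C5) (A := {a, b}) (s := a) (t := b) (by simp) (by simp) hab hn (by
    intro w hw h1 h2
    rcases hw with h | h
    · exact absurd h h1
    · exact absurd h h2)
  refine ⟨h.1, fun i => ?_⟩
  rw [h.2 i, sdiff_self]
  exact bb_empty C5 i

theorem lk5_one (v : Fin 5) : lk C5 {v} = {v + 1, v - 1} := by
  ext u
  have h : ∀ u v : Fin 5, (∀ w ∈ ({v} : Finset (Fin 5)), C5.Adj u w) ↔ (u = v + 1 ∨ u = v - 1) := by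
    decide +kernel
  exact h u v

theorem lk5_two (v : Fin 5) : lk C5 {v, v + 1} = ∅ := by
  rw [Set.eq_empty_iff_forall_notMem]
  intro u
  have h : ∀ u v : Fin 5, ¬ (∀ w ∈ ({v, v + 1} : Finset (Fin 5)), C5.Adj u w) := by
    decide +kernel
  exact h u v

theorem all5 : bb C5 Set.univ 0 = 0 ∧ bb C5 Set.univ 1 = 0 ∧
    ∀ i, bb C5 Set.univ (i + 2) = if i = 0 then 1 else 0 := by
  have e0 : (Set.univ : Set (Fin 5)) = insert 0 {1, 2, 3, 4} := by
    ext x; fin_cases x <;> simp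
  have k1 : ∀ i, bb C5 {3, 4} i = 0 := fun i => bb_cone (u := 3) (by simp) (by
    intro w hw h
    have : ∀ w : Fin 5, (w = 3 ∨ w = 4) → w ≠ 3 → C5.Adj 3 w := by decide +kernel
    exact this w hw h) i
  have k2 : ∀ i, bb C5 {2, 3, 4} i = 0 := fun i => by
    rw [← k1 i]
    refine bb_dom (v := 2) (u := 3) (by simp) (by simp) (by decide +kernel) ?_ i
    intro w hw h1 h2
    have : ∀ w : Fin 5, (w = 3 ∨ w = 4) → C5.Adj 2 w → w ≠ 3 → C5.Adj 3 w := by decide +kernel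
    exact this w hw h1 h2
  have k3 : ∀ i, bb C5 {1, 2, 3, 4} i = 0 := fun i => by
    rw [← k2 i]
    refine bb_dom (v := 1) (u := 2) (by simp) (by simp) (by decide +kernel) ?_ i
    intro w hw h1 h2
    have : ∀ w : Fin 5, (w = 2 ∨ w = 3 ∨ w = 4) → C5.Adj 1 w → w ≠ 2 → C5.Adj 2 w := by decide +kernel
    exact this w hw h1 h2
  have e1 : ({1, 2, 3, 4} : Set (Fin 5)) ∩ C5.neighborSet 0 = {1, 4} := by
    ext w
    have : ∀ w : Fin 5, ((w = 1 ∨ w = 2 ∨ w = 3 ∨ w = 4) ∧ C5.Adj 0 w) ↔ (w = 1 ∨ w = 4) := by decide +kernel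
    exact this w
  have h0 : (0 : Fin 5) ∉ ({1, 2, 3, 4} : Set (Fin 5)) := by
    have : ¬ ((0 : Fin 5) = 1 ∨ (0 : Fin 5) = 2 ∨ (0 : Fin 5) = 3 ∨ (0 : Fin 5) = 4) := by decide +kernel
    exact this
  obtain ⟨p1, p2⟩ := pair5 1 4 (by decide +kernel) (by decide +kernel)
  have s : ∀ i, bb C5 Set.univ (i + 1) = bb C5 {1, 4} i := by
    intro i
    have u1 := bb_vert (G := C5) h0 i
    have u2 := bb_lnk (G := C5) h0 i
    rw [k3, e1, ← e0] at u1
    rw [k3, e1, ← e0] at u2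
    omega
  refine ⟨?_, ?_, fun i => ?_⟩
  · have := bb_vert0 (G := C5) h0
    rw [k3, ← e0] at this
    omega
  · rw [s 0, p1]
  · rw [s (i + 1), p2 i]

theorem hsph5 : HSph 2 C5 := by
  intro S hS i
  have hS' : ∀ a ∈ S, ∀ b ∈ S, a ≠ b → C5.Adj a b := fun a ha b hb hab => hS ha hb hab
  rcases cl5 S hS' with rfl | ⟨v, rfl⟩ | ⟨v, rfl⟩
  · have hl : lk C5 (∅ : Finset (Fin 5)) = Set.univ := by
      ext x; simp [lk]
    rw [hl, Finset.card_empty]
    show bb C5 Set.univ i = _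
    obtain ⟨a1, a2, a3⟩ := all5
    match i with
    | 0 => rw [a1]; simp
    | 1 => rw [a2]; simp
    | i + 2 => rw [a3]; simp
  · rw [lk5_one, Finset.card_singleton]
    show bb C5 {v + 1, v - 1} i = _
    obtain ⟨a1, a2⟩ := pair5 (v + 1) (v - 1) (by revert v; decide +kernel) (by revert v; decide +kernel)
    match i with
    | 0 => rw [a1]; simp
    | i + 1 => rw [a2]; simp
  · have hc : ({v, v + 1} : Finset (Fin 5)).card = 2 := by revert v; decide +kernel
    rw [lk5_two, hc]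
    show bb C5 ∅ i = _
    rw [bb_empty]
    simp

theorem chi5 : chiW C5 ≠ 0 := by
  have h : chiW C5 = ∑ T : Finset (Fin 5), if (∀ a ∈ T, ∀ b ∈ T, a ≠ b → C5.Adj a b) then
      (-1 / 2 : ℚ) ^ T.card else 0 := by
    unfold chiW
    refine Finset.sum_congr rfl fun T _ => ?_
    by_cases hT : ∀ a ∈ T, ∀ b ∈ T, a ≠ b → C5.Adj a b
    · rw [if_pos hT, if_pos (show C5.IsClique (T : Set (Fin 5)) from fun a ha b hb hab => hT a ha b hb hab)]
    · rw [if_neg hT, if_neg (fun h : C5.IsClique (T : Set (Fin 5)) => hT fun a ha b hb hab => h ha hb hab)]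
  have h2 : (∑ T : Finset (Fin 5), if (∀ a ∈ T, ∀ b ∈ T, a ≠ b → C5.Adj a b) then
      (-1 / 2 : ℚ) ^ T.card else 0) = -1 / 4 := by
    decide +kernel
  rw [h, h2]
  norm_num

theorem van5 (i : ℕ) (hi : i ≠ 1) : L2Van C5 i := by
  have hH : Pool.Agent.N13.EU.Hered 2 C5 :=
    (Pool.Agent.N13.PL.hered_iff2 Pool.Agent.N13.PL.three hsph5).2 fun T m hT hm hm' => by omega
  exact Pool.Agent.N13.EU.singer_hered hsph5 hH i (by omega)

theorem nonvan5 : ¬ L2Van C5 1 := by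
  intro h
  have h1 := (l2eul (Fin 5) C5 1 fun i hi => van5 i hi).1 fun i => by
    by_cases hi : i = 1
    · rw [hi]; exact h
    · exact van5 i hi
  exact chi5 h1

end Pool.Agent.P8H64.TP
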