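import Pool.Agent.P8H64.TP.Bet

/-!
# The generating polynomial of the `ℓ²`-Betti numbers
-/

set_option autoImplicit false
set_option linter.unusedSectionVars false
set_option linter.style.haveILetI false

namespace Pool.Agent.P8H64.TP

open Pool.Agent.W907.SG Pool.Agent.W907.SM Pool.Agent.TH652.Join Polynomial

/-- the generating polynomial of the `ℓ²`-Betti numbers -/
noncomputable def bp {V : Type} [Fintype V] [LinearOrder V] (G : SimpleGraph V) : ℝ[X] :=
  ∑ T : Finset V, monomial T.card (b2 G T)

theorem bp_coeff {V : Type} [Fintype V] [LinearOrder V] (G : SimpleGraph V) (i : ℕ) :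
    (bp G).coeff i = bet G i := by
  rw [bp, finset_sum_coeff, bet]
  simp only [coeff_monomial]
  rw [← Finset.sum_filter]
  refine Finset.sum_congr ?_ fun _ _ => rfl
  ext T
  simp [Finset.mem_powersetCard]

theorem bp_eval {V : Type} [Fintype V] [LinearOrder V] (G : SimpleGraph V) :
    (bp G).eval 1 = ∑ T : Finset V, b2 G T := by
  rw [bp, eval_finset_sum]
  simp only [eval_monomial, one_pow, mul_one]

theorem bp_join {V U : Type} [Fintype V] [LinearOrder V] [Fintype U] [LinearOrder U] (G : SimpleGraph V)
    (H : SimpleGraph U) : @bp (V ⊕ U) _ (ordSum V U) (join G H) = bp G * bp H := by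
  letI oo : LinearOrder (V ⊕ U) := ordSum V U
  rw [bp, bp, bp, Finset.sum_mul_sum, ← Finset.sum_product', Finset.univ_product_univ]
  refine Finset.sum_equiv Finset.sumEquiv.toEquiv (fun _ => by simp) fun F _ => ?_
  show monomial F.card (b2 (join G H) F) = monomial F.toLeft.card (b2 G F.toLeft) *
    monomial F.toRight.card (b2 H F.toRight)
  rw [monomial_mul_monomial, ← b2_join, Finset.toLeft_disjSum_toRight, Finset.card_toLeft_add_card_toRight]

end Pool.Agent.P8H64.TP
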