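import Pool.Agent.P8H64.TP.ClsDef
import Pool.Agent.P8H64.TP.Pent
import Pool.Agent.P8H64.TP.Poly
import Pool.Agent.P8H64.TP.Anti

/-!
# Tensor powers: concentration implies vanishing
-/

set_option autoImplicit false
set_option linter.unusedSectionVars false
set_option linter.style.haveILetI false

namespace Pool.Agent.P8H64.TP

open Pool.Agent.W907.SG Pool.Agent.W907.SM Pool.Agent.TH652.Join Pool.Agent.TH652.Above Polynomial

/-- the type of classes -/
abbrev Cl := ∀ (n : ℕ) (V : Type) [Fintype V] [LinearOrder V], SimpleGraph V → Prop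

/-- members with given dimension, number of vertices and generating polynomial -/
def Mem (C : Cl) (n v : ℕ) (P : ℝ[X]) : Prop :=
  ∃ (V : Type) (_ : Fintype V) (_ : LinearOrder V) (G : SimpleGraph V), C n V G ∧ Fintype.card V = v ∧ bp G = P

theorem Mem.mul {C : Cl} (hC : JoinClass C) {n v : ℕ} {P : ℝ[X]} {n' v' : ℕ} {P' : ℝ[X]} (h : Mem C n v P)
    (h' : Mem C n' v' P') : Mem C (n + n') (v + v') (P * P') := by
  obtain ⟨V, fV, oV, G, h1, h2, h3⟩ := h
  obtain ⟨U, fU, oU, H, h1', h2', h3'⟩ := h'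
  refine ⟨V ⊕ U, inferInstance, ordSum V U, join G H, hC.join _ _ _ _ G H h1 h1', ?_, ?_⟩
  · rw [Fintype.card_sum, h2, h2']
  · rw [bp_join, h3, h3']

theorem Mem.pow {C : Cl} (hC : JoinClass C) {n v : ℕ} {P : ℝ[X]} (h : Mem C n v P) (k : ℕ) :
    Mem C ((k + 1) * n) ((k + 1) * v) (P ^ (k + 1)) := by
  induction k with
  | zero => simpa using h
  | succ k ih =>
    have := ih.mul hC h
    rw [← pow_succ, ← add_one_mul, ← add_one_mul] at this
    exact this

theorem Mem.mix {C : Cl} (hC : JoinClass C) {n v : ℕ} {P : ℝ[X]} (h : Mem C n v P) {n' v' : ℕ} {P' : ℝ[X]}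
    (h' : Mem C n' v' P') (k r : ℕ) (hkr : 1 ≤ k + r) :
    Mem C (k * n + r * n') (k * v + r * v') (P ^ k * P' ^ r) := by
  cases k with
  | zero =>
    cases r with
    | zero => omega
    | succ r => simpa using h'.pow hC r
  | succ k =>
    cases r with
    | zero => simpa using h.pow hC k
    | succ r => exact (h.pow hC k).mul hC (h'.pow hC r)

section Tot
variable {V : Type} [Fintype V] [LinearOrder V] {G : SimpleGraph V}

theorem bet_big {n : ℕ} (hS : HSph n G) {i : ℕ} (hi : n < i) : bet G i = 0 := by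
  refine Finset.sum_eq_zero fun T hT => b2_supp fun h => ?_
  have := card_le hS T h
  rw [Finset.mem_powersetCard] at hT
  omega

theorem bp_NN (G : SimpleGraph V) : NN (bp G) := fun i => by
  rw [bp_coeff]; exact bet_nonneg i

theorem tot_eq {n : ℕ} (hS : HSph n G) : ∑ j ∈ Finset.range (n + 1), bet G j = (bp G).eval 1 := by
  have h : (bp G).natDegree < n + 1 := by
    rw [Nat.lt_succ_iff, natDegree_le_iff_coeff_eq_zero]
    intro j hj
    rw [bp_coeff]
    exact bet_big hS hj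
  rw [eval_eq_sum_range' h]
  simp only [one_pow, mul_one, bp_coeff]

end Tot

/-- the pentagon -/
theorem pent_poly : ∃ f : ℝ, 0 < f ∧ bp C5 = C f * X := by
  refine ⟨bet C5 1, lt_of_le_of_ne (bet_nonneg 1) fun h => nonvan5 ((bet_eq_zero 1).1 h.symm), ?_⟩
  ext i
  rw [bp_coeff, coeff_C_mul, coeff_X]
  by_cases hi : 1 = i
  · rw [if_pos hi, ← hi, mul_one]
  · rw [if_neg hi, mul_zero]
    exact (bet_eq_zero i).2 (van5 i fun h => hi h.symm)

/-- Singer's vanishing -/
def Singer (C : Cl) : Prop :=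
  ∀ (n : ℕ) (V : Type) [Fintype V] [LinearOrder V] (G : SimpleGraph V), C n V G → ∀ i : ℕ, 2 * i ≠ n → L2Van G i

/-- a counterexample gives a polynomial with two coefficients -/
theorem bad {C : Cl} (hC : JoinClass C) (h : ¬ Singer C) : ∃ (m v : ℕ) (P : ℝ[X]) (a b : ℕ) (q : ℝ), 1 ≤ m ∧
    Mem C (2 * m) v P ∧ NN P ∧ a ≠ b ∧ a ≠ m ∧ 0 < q ∧ q ≤ P.coeff a ∧ q ≤ P.coeff b := by
  unfold Singer at h
  push Not at h
  obtain ⟨n, V, fV, oV, G, hG, i, hi, hv⟩ := h
  have hS := hC.sph n V G hG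
  have hin : i ≤ n := by
    by_contra h
    push Not at h
    exact hv (Pool.Agent.TH652.Dual.l2_top (n := n) hS h)
  have hb : bet G i ≠ 0 := fun h => hv ((bet_eq_zero i).1 h)
  have hpos : 0 < bet G i := lt_of_le_of_ne (bet_nonneg i) (Ne.symm hb)
  letI oo : LinearOrder (V ⊕ V) := ordSum V V
  have hJ : C (n + n) (V ⊕ V) (join G G) := hC.join n n V V G G hG hG
  have hSJ := hC.sph _ _ _ hJ
  have hJp : bp (join G G) = bp G * bp G := bp_join G G
  have h2 : 0 < bet (join G G) (i + i) := by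
    rw [← bp_coeff, hJp, coeff_mul]
    refine lt_of_lt_of_le (mul_pos hpos hpos) ?_
    rw [← bp_coeff]
    refine Finset.single_le_sum (f := fun x : ℕ × ℕ => (bp G).coeff x.1 * (bp G).coeff x.2)
      (fun x _ => mul_nonneg (bp_NN G _) (bp_NN G _)) (a := (i, i)) ?_
    rw [Finset.HasAntidiagonal.mem_antidiagonal]
  have hv2 : ¬ L2Van (join G G) (i + i) := fun h => h2.ne' ((bet_eq_zero _).2 h)
  have hv3 : ¬ L2Van (join G G) (n + n - (i + i)) := fun h =>
    hv2 (Pool.Agent.TH652.Dual.l2_duality (n := n + n) hSJ (i := i + i) (j := n + n - (i + i)) (by omega) h)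
  have h3 : 0 < bet (join G G) (n + n - (i + i)) :=
    lt_of_le_of_ne (bet_nonneg _) fun h => hv3 ((bet_eq_zero _).1 h.symm)
  refine ⟨n, Fintype.card (V ⊕ V), bp (join G G), i + i, n + n - (i + i),
    min (bet (join G G) (i + i)) (bet (join G G) (n + n - (i + i))), ?_, ?_, bp_NN _, by omega, by omega,
    lt_min h2 h3, ?_, ?_⟩
  · by_contra h
    omega
  · rw [two_mul]
    exact ⟨V ⊕ V, _, oo, join G G, hJ, rfl, rfl⟩
  · rw [bp_coeff]; exact min_le_left _ _
  · rw [bp_coeff]; exact min_le_right _ _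

/-- the window condition -/
def Window (C : Cl) : Prop :=
  ∀ K : ℝ, ∃ m : ℕ, 1 ≤ m ∧ ∃ w : ℕ, ∀ (V : Type) [Fintype V] [LinearOrder V] (G : SimpleGraph V),
    C (2 * m) V G → K * (w + 1) * ∑ j ∈ Finset.range (2 * m + 1), bet G j ≤
      √m * ∑ j ∈ Finset.Icc (m - w) (m + w), bet G j

/-- the tail condition -/
def Tails (C : Cl) : Prop :=
  ∀ ε : ℝ, 0 < ε → ∀ N : ℕ, ∃ m : ℕ, N ≤ m ∧ ∀ (V : Type) [Fintype V] [LinearOrder V] (G : SimpleGraph V),
    C (2 * m) V G → ∀ i : ℕ, ε * Fintype.card V ≤ |(i : ℝ) - m| →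
      bet G i ≤ ε ^ Fintype.card V * ∑ j ∈ Finset.range (2 * m + 1), bet G j

/-- the one percent condition -/
def Percent (C : Cl) : Prop :=
  ∃ δ : ℝ, 0 < δ ∧ ∀ N : ℕ, ∃ m : ℕ, N ≤ m ∧ ∀ (V : Type) [Fintype V] [LinearOrder V] (G : SimpleGraph V),
    C (2 * m) V G → δ * ∑ j ∈ Finset.range (2 * m + 1), bet G j ≤ bet G m

theorem coeff_mix {P : ℝ[X]} {f : ℝ} (k r j : ℕ) :
    (P ^ k * (C f * X) ^ r).coeff j = if r ≤ j then f ^ r * (P ^ k).coeff (j - r) else 0 := by
  rw [mul_pow, ← C_pow, ← mul_assoc, coeff_mul_X_pow']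
  split_ifs
  · rw [mul_comm, coeff_C_mul]
  · rfl

theorem eval_mix {P : ℝ[X]} {f : ℝ} (k r : ℕ) :
    (P ^ k * (C f * X) ^ r).eval 1 = (P.eval 1) ^ k * f ^ r := by
  simp

theorem singer_of_window {C : Cl} (hC : JoinClass C) (h : Window C) : Singer C := by
  by_contra hbad
  obtain ⟨m0, v, P, a, b, q, hm0, hmem, hP, hab, -, hq, ha, hb⟩ := bad hC hbad
  obtain ⟨f, hf, hfp⟩ := pent_poly
  have hF : Mem C 2 5 (Polynomial.C f * X) := ⟨Fin 5, _, _, _, hC.pent, by simp, hfp⟩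
  set S := P.eval 1 with hS
  have hS0 : 0 < S := hq.trans_le (ha.trans (hP.coeff_le a))
  set Kc : ℝ := (S / (2 * q) + 1) / 2 with hKc
  have hKc0 : 0 < Kc := by positivity
  obtain ⟨m, hm1, w, hm⟩ := h (2 * Kc * √m0 + 1)
  obtain ⟨k, hk⟩ : ∃ k, k = m / m0 := ⟨_, rfl⟩
  obtain ⟨r, hr⟩ : ∃ r, r = m % m0 := ⟨_, rfl⟩
  have hkr : m = m0 * k + r := by rw [hk, hr, Nat.div_add_mod]
  have hrm : r < m0 := by rw [hr]; exact Nat.mod_lt _ hm0
  have hkr1 : 1 ≤ k + r := by
    rcases Nat.eq_zero_or_pos k with h0 | h0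
    · rw [h0, mul_zero, zero_add] at hkr; omega
    · omega
  obtain ⟨V, fV, oV, G, hG, -, hbp⟩ := hmem.mix hC hF k r hkr1
  rw [show k * (2 * m0) + r * 2 = 2 * m by rw [hkr]; ring] at hG
  have h1 := hm V G hG
  rw [tot_eq (hC.sph _ _ _ hG), hbp, eval_mix, ← hS] at h1
  have hc : ∀ j, bet G j ≤ f ^ r * (Kc * (S ^ k / √(k + 1))) := by
    intro j
    rw [← bp_coeff, hbp, coeff_mix]
    have h0 : 0 ≤ f ^ r * (Kc * (S ^ k / √(k + 1))) := by positivity
    split_ifs
    · exact mul_le_mul_of_nonneg_left (spread hP hab hq ha hb k _) (by positivity)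
    · exact h0
  have hcard : ((Finset.Icc (m - w) (m + w)).card : ℝ) ≤ 2 * (w + 1) := by
    rw [Nat.card_Icc]
    have : m + w + 1 - (m - w) ≤ 2 * (w + 1) := by omega
    exact_mod_cast this
  have h2 : ∑ j ∈ Finset.Icc (m - w) (m + w), bet G j ≤
      2 * (w + 1) * (f ^ r * (Kc * (S ^ k / √(k + 1)))) := by
    refine (Finset.sum_le_card_nsmul _ _ _ fun j _ => hc j).trans ?_
    rw [nsmul_eq_mul]
    exact mul_le_mul_of_nonneg_right hcard (by positivity)
  have hk1 : (0 : ℝ) < k + 1 := by positivity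
  have hsq : √(m : ℝ) ≤ √(k + 1) * √m0 := by
    rw [← Real.sqrt_mul hk1.le]
    refine Real.sqrt_le_sqrt ?_
    have : m ≤ (k + 1) * m0 := by rw [hkr]; nlinarith
    exact_mod_cast this
  have hX : 0 < S ^ k * f ^ r := by positivity
  have hw : (0 : ℝ) < w + 1 := by positivity
  have h3 : (2 * Kc * √m0 + 1) * (w + 1) * (S ^ k * f ^ r) ≤
      (2 * Kc * √m0) * (w + 1) * (S ^ k * f ^ r) := by
    have hsk : 0 < √((k : ℝ) + 1) := Real.sqrt_pos.2 hk1
    calc (2 * Kc * √m0 + 1) * (w + 1) * (S ^ k * f ^ r)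
        ≤ √m * ∑ j ∈ Finset.Icc (m - w) (m + w), bet G j := h1
      _ ≤ (√(k + 1) * √m0) * (2 * (w + 1) * (f ^ r * (Kc * (S ^ k / √(k + 1))))) :=
        mul_le_mul hsq h2 (Finset.sum_nonneg fun j _ => bet_nonneg j) (by positivity)
      _ = (2 * Kc * √m0) * (w + 1) * (S ^ k * f ^ r) := by
        field_simp
  have h4 : 0 < (w + 1) * (S ^ k * f ^ r) := by positivity
  nlinarith

theorem singer_of_tails {C : Cl} (hC : JoinClass C) (h : Tails C) : Singer C := by
  by_contra hbad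
  obtain ⟨m0, v, P, a, b, q, hm0, hmem, hP, hab, ham, hq, ha, hb⟩ := bad hC hbad
  obtain ⟨f, hf, hfp⟩ := pent_poly
  have hF : Mem C 2 5 (Polynomial.C f * X) := ⟨Fin 5, _, _, _, hC.pent, by simp, hfp⟩
  set S := P.eval 1 with hS
  have hS0 : 0 < S := hq.trans_le (ha.trans (hP.coeff_le a))
  -- the parameters
  set D : ℝ := v + 5 * m0 + 1 with hD
  have hD0 : 0 < D := by positivity
  obtain ⟨ε, hε0, hε1, hε2, hε3⟩ : ∃ ε : ℝ, 0 < ε ∧ ε < 1 ∧ ε * D ≤ 1 ∧ ε * S < q := by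
    refine ⟨min (1 / 2) (min (1 / D) (q / (2 * S))), ?_, ?_, ?_, ?_⟩
    · refine lt_min (by norm_num) (lt_min (by positivity) (by positivity))
    · exact (min_le_left _ _).trans_lt (by norm_num)
    · calc _ ≤ (1 / D) * D := mul_le_mul_of_nonneg_right ((min_le_right _ _).trans (min_le_left _ _)) hD0.le
        _ = 1 := by field_simp
    · calc _ ≤ (q / (2 * S)) * S := mul_le_mul_of_nonneg_right ((min_le_right _ _).trans (min_le_right _ _)) hS0.le
        _ = q / 2 := by field_simp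
        _ < q := by linarith
  obtain ⟨m, hmN, hm⟩ := h ε hε0 m0
  obtain ⟨k, hk⟩ : ∃ k, k = m / m0 := ⟨_, rfl⟩
  obtain ⟨r, hr⟩ : ∃ r, r = m % m0 := ⟨_, rfl⟩
  have hkr : m = m0 * k + r := by rw [hk, hr, Nat.div_add_mod]
  have hrm : r < m0 := by rw [hr]; exact Nat.mod_lt _ hm0
  have hk1 : 1 ≤ k := by rw [hk]; exact (Nat.one_le_div_iff hm0).2 hmN
  obtain ⟨V, fV, oV, G, hG, hcard, hbp⟩ := hmem.mix hC hF k r (by omega)
  rw [show k * (2 * m0) + r * 2 = 2 * m by rw [hkr]; ring] at hG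
  have hSG := hC.sph _ _ _ hG
  -- the number of vertices
  have hvk : k ≤ Fintype.card V := by
    have h1 : 2 * m ≤ Fintype.card V := by
      obtain ⟨T, -, hT⟩ : ∃ T : Finset V, G.IsClique (T : Set V) ∧ T.card = 2 * m := by
        have h2 := hSG ∅ (by simp) (2 * m)
        rw [if_pos (by simp), beta_eq] at h2
        have h3 : HH G (lk G ∅) (2 * m) ≠ ⊥ := by
          intro h4
          rw [h4, finrank_bot] at h2
          exact absurd h2 (by norm_num)
        obtain ⟨c, hc, hc0⟩ := Submodule.exists_mem_ne_zero_of_ne_bot h3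
        obtain ⟨T, hT⟩ := Function.ne_iff.1 hc0
        by_contra hcon
        exact hT ((mem_HH.1 hc).1 T fun h5 => hcon ⟨T, h5.1, h5.2.2⟩)
      rw [← hT]
      exact Finset.card_le_univ T
    have h2 : k ≤ m := by rw [hkr]; nlinarith
    omega
  have hvD : (Fintype.card V : ℝ) ≤ k * D := by
    rw [hcard, hD]
    push_cast
    have h1 : (r : ℝ) ≤ k * m0 := by
      have : r ≤ k * m0 := by nlinarith
      exact_mod_cast this
    have h2 : (0 : ℝ) ≤ k := Nat.cast_nonneg k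
    nlinarith
  have h1 := hm V G hG (k * a + r) (by
    have h2 : ((k * a + r : ℕ) : ℝ) - m = k * ((a : ℝ) - m0) := by
      rw [hkr]; push_cast; ring
    rw [h2, abs_mul, Nat.abs_cast]
    have h3 : (1 : ℝ) ≤ |(a : ℝ) - m0| := by
      have h4 : (1 : ℤ) ≤ |(a : ℤ) - m0| := by
        apply Int.one_le_abs
        intro h5
        apply ham
        omega
      exact_mod_cast h4
    calc ε * Fintype.card V ≤ ε * (k * D) := mul_le_mul_of_nonneg_left hvD hε0.le
      _ = k * (ε * D) := by ring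
      _ ≤ k * 1 := mul_le_mul_of_nonneg_left hε2 (Nat.cast_nonneg k)
      _ ≤ k * |(a : ℝ) - m0| := mul_le_mul_of_nonneg_left h3 (Nat.cast_nonneg k))
  rw [tot_eq hSG, hbp, eval_mix, ← hS, ← bp_coeff, hbp, coeff_mix, if_pos (by omega),
    show k * a + r - r = k * a by omega] at h1
  have h2 : q ^ k ≤ (P ^ k).coeff (k * a) :=
    (pow_le_pow_left₀ hq.le ha k).trans (hP.pow_coeff a k)
  have h3 : ε ^ Fintype.card V ≤ ε ^ k := pow_le_pow_of_le_one hε0.le hε1.le hvk
  have h4 : f ^ r * q ^ k ≤ ε ^ k * (S ^ k * f ^ r) :=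
    (mul_le_mul_of_nonneg_left h2 (by positivity)).trans (h1.trans
      (mul_le_mul_of_nonneg_right h3 (by positivity)))
  have h5 : (ε * S) ^ k < q ^ k := pow_lt_pow_left₀ hε3 (by positivity) (by omega)
  have h6 : 0 < f ^ r := by positivity
  have h7 : f ^ r * q ^ k ≤ f ^ r * (ε * S) ^ k := by
    rw [mul_pow]
    calc f ^ r * q ^ k ≤ ε ^ k * (S ^ k * f ^ r) := h4
      _ = f ^ r * (ε ^ k * S ^ k) := by ring
  have h8 := le_of_mul_le_mul_left h7 h6
  linarith

theorem tails_of_singer {C : Cl} (hC : JoinClass C) (h : Singer C) : Tails C := by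
  intro ε hε N
  refine ⟨N, le_rfl, fun V _ _ G hG i hi => ?_⟩
  have hS := hC.sph _ _ _ hG
  have hnn : 0 ≤ ∑ j ∈ Finset.range (2 * N + 1), bet G j := Finset.sum_nonneg fun j _ => bet_nonneg j
  by_cases h1 : i = N
  · rw [h1, sub_self, abs_zero] at hi
    have h2 : (Fintype.card V : ℝ) = 0 := by
      have : (0 : ℝ) ≤ Fintype.card V := Nat.cast_nonneg _
      nlinarith
    have h3 : Fintype.card V = 0 := by exact_mod_cast h2
    rw [h3, pow_zero, one_mul, h1]
    exact Finset.single_le_sum (f := fun j => bet G j) (fun j _ => bet_nonneg j)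
      (Finset.mem_range.2 (by omega))
  · rw [(bet_eq_zero i).2 (h _ V G hG i (by omega))]
    positivity

theorem percent_of_singer {C : Cl} (h : Singer C) : Percent C := by
  refine ⟨1, one_pos, fun N => ⟨N, le_rfl, fun V _ _ G hG => ?_⟩⟩
  rw [one_mul, Finset.sum_eq_single N]
  · intro j _ hj
    exact (bet_eq_zero j).2 (h _ V G hG j (by omega))
  · intro h1
    exact absurd (Finset.mem_range.2 (by omega)) h1

theorem window_of_percent {C : Cl} (h : Percent C) : Window C := by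
  obtain ⟨δ, hδ, h⟩ := h
  intro K
  obtain ⟨N, hN⟩ := exists_nat_ge ((K / δ) ^ 2)
  obtain ⟨m, hm, hm2⟩ := h (N + 1)
  refine ⟨m, by omega, 0, fun V _ _ G hG => ?_⟩
  have h1 := hm2 V G hG
  have hnn : 0 ≤ ∑ j ∈ Finset.range (2 * m + 1), bet G j := Finset.sum_nonneg fun j _ => bet_nonneg j
  have h2 : K ≤ √m * δ := by
    rw [← div_le_iff₀ hδ]
    refine Real.le_sqrt_of_sq_le (hN.trans ?_)
    exact_mod_cast (by omega : N ≤ m)
  simp only [Nat.sub_zero, add_zero, Finset.Icc_self, Finset.sum_singleton]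
  calc K * (((0 : ℕ) : ℝ) + 1) * ∑ j ∈ Finset.range (2 * m + 1), bet G j
      = K * ∑ j ∈ Finset.range (2 * m + 1), bet G j := by simp
    _ ≤ (√m * δ) * ∑ j ∈ Finset.range (2 * m + 1), bet G j := mul_le_mul_of_nonneg_right h2 hnn
    _ = √m * (δ * ∑ j ∈ Finset.range (2 * m + 1), bet G j) := by ring
    _ ≤ √m * bet G m := mul_le_mul_of_nonneg_left h1 (Real.sqrt_nonneg _)

end Pool.Agent.P8H64.TP
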