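import Pool.Agent.P8H64.TP.Tens

/-!
# Slices of a harmonic chain on a product
-/

set_option autoImplicit false
set_option linter.unusedSectionVars false
set_option linter.style.haveILetI false

namespace Pool.Agent.P8H64.TP

open Pool.Agent.W907.SG Pool.Agent.W907.SM Pool.Agent.TH652.Join
open Pool.Agent.W461.SGN (simple_mul_self simple_comm)
open Pool.Agent.W338.SG (inc inc_simple)
open scoped InnerProductSpace ENNReal

variable {V U : Type} [Fintype V] [LinearOrder V] [Fintype U] [LinearOrder U]

theorem iL_inj (G : SimpleGraph V) (H : SimpleGraph U) : Function.Injective (iL G H) := by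
  intro a b h
  rw [← prL_iL G H a, ← prL_iL G H b, h]

theorem iR_inj (G : SimpleGraph V) (H : SimpleGraph U) : Function.Injective (iR G H) := by
  intro a b h
  rw [← prR_iR G H a, ← prR_iR G H b, h]

theorem slices (G : SimpleGraph V) (H : SimpleGraph U) (i : ℕ) (c : W (join G H) → Finset (V ⊕ U) → ℝ)
    (hc : @IsHarm (V ⊕ U) _ (ordSum V U) (join G H) i c) :
    (∀ (w : W (join G H)) (S : Finset U) (p : ℕ), p + S.card = i →
      IsHarm G p (fun g T => c (w * iL G H g) (T.disjSum S))) ∧
    (∀ (w : W (join G H)) (T : Finset V) (q : ℕ), T.card + q = i →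
      IsHarm H q (fun h S => c (w * iR G H h) (T.disjSum S))) := by
  letI oo : LinearOrder (V ⊕ U) := ordSum V U
  have cj : ∀ (T : Finset V) (S : Finset U), (join G H).IsClique ((T.disjSum S : Finset (V ⊕ U)) : Set (V ⊕ U)) ↔
      G.IsClique (T : Set V) ∧ H.IsClique (S : Set U) := clique_join G H
  have jlr : ∀ v u, (join G H).Adj (Sum.inl v) (Sum.inr u) := by
    intro v u; trivial
  -- the chains as elements of the Hilbert space
  have hmem : ∀ T : Finset (V ⊕ U), Memℓp (fun w : W (join G H) => c w T) 2 := by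
    intro T
    have h2 : 0 < (2 : ℝ≥0∞).toReal := by norm_num
    rw [memℓp_gen_iff h2]
    have h3 := hc.summable.comp_injective (i := fun w : W (join G H) => (w, T)) (fun a b hab => (Prod.mk.inj hab).1)
    refine h3.congr fun w => ?_
    have h4 : (2 : ℝ≥0∞).toReal = ((2 : ℕ) : ℝ) := by norm_num
    simp only [h4, Real.rpow_natCast, Real.norm_eq_abs, sq_abs, Function.comp]
  let x : Finset V → Finset U → lp (fun _ : W (join G H) => ℝ) 2 := fun T S => ⟨fun w => c w (T.disjSum S), hmem _⟩
  have hx : ∀ T S (w : W (join G H)), x T S w = c w (T.disjSum S) := fun _ _ _ => rfl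
  let R : V → lp (fun _ : W (join G H) => ℝ) 2 →ₗ[ℝ] lp (fun _ : W (join G H) => ℝ) 2 := fun v => RR ((cox (join G H)).simple (Sum.inl v))
  let Q : U → lp (fun _ : W (join G H) => ℝ) 2 →ₗ[ℝ] lp (fun _ : W (join G H) => ℝ) 2 := fun u => RR ((cox (join G H)).simple (Sum.inr u))
  have hR : ∀ v (a : lp (fun _ : W (join G H) => ℝ) 2) w, R v a w = a (w * (cox (join G H)).simple (Sum.inl v)) := fun _ _ _ => rfl
  have hQ : ∀ v (a : lp (fun _ : W (join G H) => ℝ) 2) w, Q v a w = a (w * (cox (join G H)).simple (Sum.inr v)) := fun _ _ _ => rfl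
  have ss1 : ∀ T S (w : W (join G H)), d1 x T S w = ∑ v ∈ Tᶜ, (sg v T : ℝ) * c w ((insert v T).disjSum S) := by
    intro T S w
    rw [d1, lp.coeFn_sum, Finset.sum_apply]
    refine Finset.sum_congr rfl fun v _ => ?_
    rw [lp.coeFn_smul, Pi.smul_apply, hx, smul_eq_mul]
  have ss2 : ∀ T S (w : W (join G H)), d2 x T S w = ∑ u ∈ Sᶜ, (sg u S : ℝ) * c w (T.disjSum (insert u S)) := by
    intro T S w
    rw [d2, lp.coeFn_sum, Finset.sum_apply]
    refine Finset.sum_congr rfl fun v _ => ?_
    rw [lp.coeFn_smul, Pi.smul_apply, hx, smul_eq_mul]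
  have ss3 : ∀ T S (w : W (join G H)), e1 R x T S w = ∑ t ∈ T, (sg t (T.erase t) : ℝ) * (c w ((T.erase t).disjSum S) -
      c (w * (cox (join G H)).simple (Sum.inl t)) ((T.erase t).disjSum S)) := by
    intro T S w
    rw [e1, lp.coeFn_sum, Finset.sum_apply]
    refine Finset.sum_congr rfl fun v _ => ?_
    rw [lp.coeFn_smul, Pi.smul_apply, lp.coeFn_sub, Pi.sub_apply, hR, hx, hx, smul_eq_mul]
  have ss4 : ∀ T S (w : W (join G H)), e2 Q x T S w = ∑ t ∈ S, (sg t (S.erase t) : ℝ) * (c w (T.disjSum (S.erase t)) -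
      c (w * (cox (join G H)).simple (Sum.inr t)) (T.disjSum (S.erase t))) := by
    intro T S w
    rw [e2, lp.coeFn_sum, Finset.sum_apply]
    refine Finset.sum_congr rfl fun v _ => ?_
    rw [lp.coeFn_smul, Pi.smul_apply, lp.coeFn_sub, Pi.sub_apply, hQ, hx, hx, smul_eq_mul]
  have hsp := split R Q (fun v => RR_adj _ (simple_mul_self (join G H) _)) (fun v => RR_adj _ (simple_mul_self (join G H) _))
    (fun v u a => by
      ext w
      rw [hR, hQ, hQ, hR, join_simple_comm (join G H) (Sum.inl v) (Sum.inr u) (jlr v u)])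
    x
    (fun T S t ht => by
      ext w
      rw [hR, hx, lp.coeFn_neg, Pi.neg_apply, hx]
      exact hc.anti w _ _ (Finset.inl_mem_disjSum.2 ht))
    (fun T S t ht => by
      ext w
      rw [hQ, hx, lp.coeFn_neg, Pi.neg_apply, hx]
      exact hc.anti w _ _ (Finset.inr_mem_disjSum.2 ht))
    (fun T => G.IsClique (T : Set V)) (fun S => H.IsClique (S : Set U))
    (fun T S hTS => by
      ext w
      rw [hx]
      refine hc.supp w _ fun h1 => hTS ?_
      exact (cj T S).1 h1.1)
    (fun T S => by
      ext w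
      rw [lp.coeFn_add, Pi.add_apply, lp.coeFn_smul, Pi.smul_apply, ss1, ss2, smul_eq_mul]
      have h1 := hc.cycle w (T.disjSum S)
      rw [compl_disjSum, Finset.sum_disjSum] at h1
      simp only [insert_inl, insert_inr, sg_inl, sg_inr] at h1
      rw [Finset.mul_sum]
      refine Eq.trans ?_ h1
      congr 1
      refine Finset.sum_congr rfl fun u _ => ?_
      push_cast
      ring)
    (fun T S hT hS => by
      ext w
      rw [lp.coeFn_add, Pi.add_apply, lp.coeFn_smul, Pi.smul_apply, ss3, ss4, smul_eq_mul]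
      have h1 := hc.cocycle w (T.disjSum S) ((cj T S).2 ⟨hT, hS⟩)
      rw [Finset.sum_disjSum] at h1
      simp only [erase_inl, erase_inr, sg_inl, sg_inr] at h1
      rw [Finset.mul_sum]
      refine Eq.trans ?_ h1
      congr 1
      refine Finset.sum_congr rfl fun u _ => ?_
      push_cast
      ring)
  obtain ⟨y1, y2, y3, y4⟩ := hsp
  refine ⟨fun w S p hp => ?_, fun w T q hq => ?_⟩
  · refine ⟨fun g T' hT => ?_, fun g T' t ht => ?_, ?_, fun g T' => ?_, fun g T' hT => ?_⟩
    · refine hc.supp _ _ fun h1 => hT ?_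
      refine ⟨((cj T' S).1 h1.1).1, ?_⟩
      have := h1.2
      rw [Finset.card_disjSum] at this
      omega
    · rw [map_mul, iL_s, ← mul_assoc]
      exact hc.anti _ _ _ (Finset.inl_mem_disjSum.2 ht)
    · refine hc.summable.comp_injective (i := fun y : W G × Finset V =>
        (w * iL G H y.1, y.2.disjSum S)) ?_
      rintro ⟨g, T1⟩ ⟨g', T2⟩ hab
      simp only [Prod.mk.injEq, mul_right_inj, Finset.disjSum_inj, and_true] at hab
      exact Prod.ext (iL_inj G H hab.1) hab.2
    · have := congrArg (fun f : lp (fun _ : W (join G H) => ℝ) 2 => f (w * iL G H g)) (y1 T' S)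
      simp only [ss1] at this
      exact this
    · by_cases hS : H.IsClique (S : Set U)
      · have := congrArg (fun f : lp (fun _ : W (join G H) => ℝ) 2 => f (w * iL G H g)) (y3 T' S hT hS)
        simp only [ss3] at this
        refine Eq.trans ?_ this
        refine Finset.sum_congr rfl fun t _ => ?_
        rw [map_mul, iL_s, ← mul_assoc]
      · refine Finset.sum_eq_zero fun t _ => ?_
        rw [hc.supp _ _ (fun h1 => hS ((cj _ S).1 h1.1).2),
          hc.supp _ _ (fun h1 => hS ((cj _ S).1 h1.1).2)]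
        simp
  · refine ⟨fun g T' hT => ?_, fun g T' t ht => ?_, ?_, fun g T' => ?_, fun g T' hT => ?_⟩
    · refine hc.supp _ _ fun h1 => hT ?_
      refine ⟨((cj T T').1 h1.1).2, ?_⟩
      have := h1.2
      rw [Finset.card_disjSum] at this
      omega
    · rw [map_mul, iR_s, ← mul_assoc]
      exact hc.anti _ _ _ (Finset.inr_mem_disjSum.2 ht)
    · refine hc.summable.comp_injective (i := fun y : W H × Finset U =>
        (w * iR G H y.1, T.disjSum y.2)) ?_
      rintro ⟨g, T1⟩ ⟨g', T2⟩ hab
      simp only [Prod.mk.injEq, mul_right_inj, Finset.disjSum_inj, true_and] at hab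
      exact Prod.ext (iR_inj G H hab.1) hab.2
    · have := congrArg (fun f : lp (fun _ : W (join G H) => ℝ) 2 => f (w * iR G H g)) (y2 T T')
      simp only [ss2] at this
      exact this
    · by_cases hS : G.IsClique (T : Set V)
      · have := congrArg (fun f : lp (fun _ : W (join G H) => ℝ) 2 => f (w * iR G H g)) (y4 T T' hS hT)
        simp only [ss4] at this
        refine Eq.trans ?_ this
        refine Finset.sum_congr rfl fun t _ => ?_
        rw [map_mul, iR_s, ← mul_assoc]
      · refine Finset.sum_eq_zero fun t _ => ?_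
        rw [hc.supp _ _ (fun h1 => hS ((cj T _).1 h1.1).1),
          hc.supp _ _ (fun h1 => hS ((cj T _).1 h1.1).1)]
        simp

end Pool.Agent.P8H64.TP
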