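import Pool.Agent.TH652.JoinL2
import Pool.Agent.TH652.QDef

/-!
# Harmonic chains on a product of right-angled Coxeter groups

Products of harmonic chains, slices of a harmonic chain, the `ℓ²`-Betti numbers of a join.
-/

set_option autoImplicit false
set_option linter.unusedSectionVars false
set_option linter.style.haveILetI false

namespace Pool.Agent.P8H64.TP

open Pool.Agent.W907.SG Pool.Agent.W907.SM Pool.Agent.TH652.Join
open Pool.Agent.W461.SGN (simple_mul_self simple_comm)
open Pool.Agent.W338.SG (inc inc_simple)
open scoped InnerProductSpace ENNReal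

section Proj
variable {V U : Type} (G : SimpleGraph V) (H : SimpleGraph U)

theorem liftL : (cox (join G H)).IsLiftable
    (fun x => Sum.elim (fun v => (cox G).simple v) (fun _ => (1 : W G)) x) := by
  refine Pool.Agent.W461.SGN.liftable _ _ ?_ ?_
  · rintro (v | u)
    · exact simple_mul_self G v
    · exact one_mul _
  · rintro (v | u) (v' | u') h
    · exact simple_comm G v v' h
    · show (cox G).simple v * 1 = 1 * (cox G).simple v
      rw [mul_one, one_mul]
    · show 1 * (cox G).simple v' = (cox G).simple v' * 1
      rw [mul_one, one_mul]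
    · rfl

theorem liftR : (cox (join G H)).IsLiftable
    (fun x => Sum.elim (fun _ => (1 : W H)) (fun u => (cox H).simple u) x) := by
  refine Pool.Agent.W461.SGN.liftable _ _ ?_ ?_
  · rintro (v | u)
    · exact one_mul _
    · exact simple_mul_self H u
  · rintro (v | u) (v' | u') h
    · rfl
    · show 1 * (cox H).simple u' = (cox H).simple u' * 1
      rw [mul_one, one_mul]
    · show (cox H).simple u * 1 = 1 * (cox H).simple u
      rw [mul_one, one_mul]
    · exact simple_comm H u u' h

/-- the projection to the first factor -/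
noncomputable def prL : W (join G H) →* W G := (cox (join G H)).toCoxeterSystem.lift ⟨_, liftL G H⟩

/-- the projection to the second factor -/
noncomputable def prR : W (join G H) →* W H := (cox (join G H)).toCoxeterSystem.lift ⟨_, liftR G H⟩

theorem prL_l (v : V) : prL G H ((cox (join G H)).simple (Sum.inl v)) = (cox G).simple v :=
  CoxeterSystem.lift_apply_simple _ _ _

theorem prL_r (u : U) : prL G H ((cox (join G H)).simple (Sum.inr u)) = 1 :=
  CoxeterSystem.lift_apply_simple _ _ _

theorem prR_l (v : V) : prR G H ((cox (join G H)).simple (Sum.inl v)) = 1 :=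
  CoxeterSystem.lift_apply_simple _ _ _

theorem prR_r (u : U) : prR G H ((cox (join G H)).simple (Sum.inr u)) = (cox H).simple u :=
  CoxeterSystem.lift_apply_simple _ _ _

/-- the inclusion of the first factor -/
noncomputable def iL : W G →* W (join G H) := inc G (join G H) Sum.inl (fun _ _ h => h)

/-- the inclusion of the second factor -/
noncomputable def iR : W H →* W (join G H) := inc H (join G H) Sum.inr (fun _ _ h => h)

theorem iL_s (v : V) : iL G H ((cox G).simple v) = (cox (join G H)).simple (Sum.inl v) :=
  inc_simple _ _ _ _ _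

theorem iR_s (u : U) : iR G H ((cox H).simple u) = (cox (join G H)).simple (Sum.inr u) :=
  inc_simple _ _ _ _ _

theorem prL_iL (g : W G) : prL G H (iL G H g) = g := by
  have h : (prL G H).comp (iL G H) = MonoidHom.id _ := by
    refine (cox G).toCoxeterSystem.ext_simple fun v => ?_
    show prL G H (iL G H ((cox G).simple v)) = (cox G).simple v
    rw [iL_s, prL_l]
  exact DFunLike.congr_fun h g

theorem prR_iR (g : W H) : prR G H (iR G H g) = g := by
  have h : (prR G H).comp (iR G H) = MonoidHom.id _ := by
    refine (cox H).toCoxeterSystem.ext_simple fun v => ?_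
    show prR G H (iR G H ((cox H).simple v)) = (cox H).simple v
    rw [iR_s, prR_r]
  exact DFunLike.congr_fun h g

theorem prL_iR (g : W H) : prL G H (iR G H g) = 1 := by
  have h : (prL G H).comp (iR G H) = 1 := by
    refine (cox H).toCoxeterSystem.ext_simple fun v => ?_
    show prL G H (iR G H ((cox H).simple v)) = 1
    rw [iR_s, prL_r]
  exact DFunLike.congr_fun h g

theorem prR_iL (g : W G) : prR G H (iL G H g) = 1 := by
  have h : (prR G H).comp (iL G H) = 1 := by
    refine (cox G).toCoxeterSystem.ext_simple fun v => ?_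
    show prR G H (iL G H ((cox G).simple v)) = 1
    rw [iL_s, prR_l]
  exact DFunLike.congr_fun h g

theorem comm_iL (u : U) (g : W G) :
    (cox (join G H)).simple (Sum.inr u) * iL G H g = iL G H g * (cox (join G H)).simple (Sum.inr u) := by
  refine CoxeterSystem.simple_induction_left (cox G).toCoxeterSystem (p := fun g =>
    (cox (join G H)).simple (Sum.inr u) * iL G H g = iL G H g * (cox (join G H)).simple (Sum.inr u)) g ?_ ?_
  · simp only [map_one, one_mul, mul_one]
  · intro w i h
    have e : iL G H ((cox G).simple i) = (cox (join G H)).simple (Sum.inl i) := iL_s G H i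
    have h2 : (cox (join G H)).simple (Sum.inr u) * (cox (join G H)).simple (Sum.inl i) =
        (cox (join G H)).simple (Sum.inl i) * (cox (join G H)).simple (Sum.inr u) :=
      simple_comm (join G H) _ _ trivial
    have e' : iL G H ((cox G).toCoxeterSystem.simple i * w) =
        (cox (join G H)).simple (Sum.inl i) * iL G H w := by
      rw [map_mul]
      congr 1
    simp only [e']
    rw [← mul_assoc, h2, mul_assoc, h, mul_assoc]

theorem dec (w : W (join G H)) : iL G H (prL G H w) * iR G H (prR G H w) = w := by
  refine CoxeterSystem.simple_induction_left (cox (join G H)).toCoxeterSystem (p := fun w =>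
    iL G H (prL G H w) * iR G H (prR G H w) = w) w ?_ ?_
  · simp only [map_one, mul_one]
  · rintro w (v | u) h
    · have e1 : prL G H ((cox (join G H)).toCoxeterSystem.simple (Sum.inl v) * w) =
          (cox G).simple v * prL G H w := by
        rw [map_mul]; congr 1
      have e2 : prR G H ((cox (join G H)).toCoxeterSystem.simple (Sum.inl v) * w) = prR G H w := by
        rw [map_mul]
        have : prR G H ((cox (join G H)).toCoxeterSystem.simple (Sum.inl v)) = 1 := prR_l G H v
        rw [this, one_mul]
      simp only [e1, e2, map_mul, iL_s]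
      rw [mul_assoc, h]
      rfl
    · have e1 : prR G H ((cox (join G H)).toCoxeterSystem.simple (Sum.inr u) * w) =
          (cox H).simple u * prR G H w := by
        rw [map_mul]; congr 1
      have e2 : prL G H ((cox (join G H)).toCoxeterSystem.simple (Sum.inr u) * w) = prL G H w := by
        rw [map_mul]
        have : prL G H ((cox (join G H)).toCoxeterSystem.simple (Sum.inr u)) = 1 := prL_r G H u
        rw [this, one_mul]
      simp only [e1, e2, map_mul, iR_s]
      rw [← mul_assoc, ← comm_iL, mul_assoc, h]
      rfl

theorem pr_inj {a b : W (join G H)} (h1 : prL G H a = prL G H b) (h2 : prR G H a = prR G H b) : a = b := by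
  rw [← dec G H a, ← dec G H b, h1, h2]

end Proj

section Prod
variable {V U : Type} [Fintype V] [LinearOrder V] [Fintype U] [LinearOrder U]

theorem toL_disj (T : Finset V) (S : Finset U) : (T.disjSum S).toLeft = T := by
  ext x; simp

theorem toR_disj (T : Finset V) (S : Finset U) : (T.disjSum S).toRight = S := by
  ext x; simp

/-- the product of two chains -/
noncomputable def cp (G : SimpleGraph V) (H : SimpleGraph U) (c : W G → Finset V → ℝ) (d : W H → Finset U → ℝ) :
    W (join G H) → Finset (V ⊕ U) → ℝ :=
  fun w T => c (prL G H w) T.toLeft * d (prR G H w) T.toRight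

theorem cp_apply (G : SimpleGraph V) (H : SimpleGraph U) (c : W G → Finset V → ℝ) (d : W H → Finset U → ℝ)
    (w : W (join G H)) (T : Finset V) (S : Finset U) :
    cp G H c d w (T.disjSum S) = c (prL G H w) T * d (prR G H w) S := by
  rw [cp, toL_disj, toR_disj]

/-- the injection used for the norms -/
theorem key_inj (G : SimpleGraph V) (H : SimpleGraph U) :
    Function.Injective (fun x : W (join G H) × Finset (V ⊕ U) =>
      (((prL G H x.1, x.2.toLeft), (prR G H x.1, x.2.toRight)) : (W G × Finset V) × (W H × Finset U))) := by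
  rintro ⟨w, T⟩ ⟨w', T'⟩ h
  simp only [Prod.mk.injEq] at h
  obtain ⟨⟨h1, h2⟩, h3, h4⟩ := h
  refine Prod.ext (pr_inj G H h1 h3) ?_
  show T = T'
  rw [← Finset.toLeft_disjSum_toRight (u := T), ← Finset.toLeft_disjSum_toRight (u := T'), h2, h4]

theorem harm_prod (G : SimpleGraph V) (H : SimpleGraph U) (p q : ℕ) (c : W G → Finset V → ℝ)
    (d : W H → Finset U → ℝ) (hc : IsHarm G p c) (hd : IsHarm H q d) :
    @IsHarm (V ⊕ U) _ (ordSum V U) (join G H) (p + q) (cp G H c d) := by
  letI oo : LinearOrder (V ⊕ U) := ordSum V U
  have sjl : ∀ (w : W (join G H)) v, prL G H (w * (cox (join G H)).simple (Sum.inl v)) =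
      prL G H w * (cox G).simple v := fun w v => by rw [map_mul, prL_l]
  have sjr : ∀ (w : W (join G H)) v, prL G H (w * (cox (join G H)).simple (Sum.inr v)) =
      prL G H w := fun w v => by rw [map_mul, prL_r, mul_one]
  have srl : ∀ (w : W (join G H)) v, prR G H (w * (cox (join G H)).simple (Sum.inl v)) =
      prR G H w := fun w v => by rw [map_mul, prR_l, mul_one]
  have srr : ∀ (w : W (join G H)) v, prR G H (w * (cox (join G H)).simple (Sum.inr v)) =
      prR G H w * (cox H).simple v := fun w v => by rw [map_mul, prR_r]
  refine ⟨fun w T' hT => ?_, fun w T' t ht => ?_, ?_, fun w T' => ?_, fun w T' hT => ?_⟩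
  · rw [← Finset.toLeft_disjSum_toRight (u := T')] at hT ⊢
    generalize T'.toLeft = T at hT ⊢
    generalize T'.toRight = S at hT ⊢
    rw [cp_apply]
    rw [clique_join, Finset.card_disjSum] at hT
    by_cases h1 : G.IsClique (T : Set V) ∧ T.card = p
    · have h2 : ¬ (H.IsClique (S : Set U) ∧ S.card = q) := by
        rintro ⟨h3, h4⟩
        exact hT ⟨⟨h1.1, h3⟩, by omega⟩
      rw [hd.supp _ _ h2, mul_zero]
    · rw [hc.supp _ _ h1, zero_mul]
  · rw [← Finset.toLeft_disjSum_toRight (u := T')] at ht ⊢
    generalize T'.toLeft = T at ht ⊢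
    generalize T'.toRight = S at ht ⊢
    rw [cp_apply, cp_apply]
    rcases t with t | t
    · rw [sjl, srl, hc.anti _ _ _ (Finset.inl_mem_disjSum.1 ht)]; ring
    · rw [sjr, srr, hd.anti _ _ _ (Finset.inr_mem_disjSum.1 ht)]; ring
  · have h1 := (hc.summable.mul_of_nonneg hd.summable (fun _ => sq_nonneg _) (fun _ => sq_nonneg _))
    have h2 := h1.comp_injective (key_inj G H)
    refine h2.congr fun x => ?_
    simp only [Function.comp, cp, mul_pow]
  · rw [← Finset.toLeft_disjSum_toRight (u := T')]
    generalize T'.toLeft = T
    generalize T'.toRight = S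
    rw [compl_disjSum, Finset.sum_disjSum]
    simp only [insert_inl, insert_inr, sg_inl, sg_inr, cp_apply]
    have h1 := hc.cycle (prL G H w) T
    have h2 := hd.cycle (prR G H w) S
    have e1 : ∑ v ∈ Tᶜ, (sg v T : ℝ) * (c (prL G H w) (insert v T) * d (prR G H w) S) =
        (∑ v ∈ Tᶜ, (sg v T : ℝ) * c (prL G H w) (insert v T)) * d (prR G H w) S := by
      rw [Finset.sum_mul]
      exact Finset.sum_congr rfl fun _ _ => by ring
    have e2 : ∑ u ∈ Sᶜ, (((-1) ^ T.card * sg u S : ℤ) : ℝ) * (c (prL G H w) T * d (prR G H w) (insert u S)) =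
        ((-1) ^ T.card * c (prL G H w) T) * ∑ u ∈ Sᶜ, (sg u S : ℝ) * d (prR G H w) (insert u S) := by
      rw [Finset.mul_sum]
      refine Finset.sum_congr rfl fun _ _ => ?_
      push_cast; ring
    rw [e1, e2, h1, h2]; ring
  · rw [← Finset.toLeft_disjSum_toRight (u := T')] at hT ⊢
    generalize T'.toLeft = T at hT ⊢
    generalize T'.toRight = S at hT ⊢
    rw [clique_join] at hT
    rw [Finset.sum_disjSum]
    simp only [erase_inl, erase_inr, sg_inl, sg_inr, cp_apply, sjl, sjr, srl, srr]
    have h1 := hc.cocycle (prL G H w) T hT.1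
    have h2 := hd.cocycle (prR G H w) S hT.2
    have e1 : ∑ t ∈ T, (sg t (T.erase t) : ℝ) * (c (prL G H w) (T.erase t) * d (prR G H w) S -
        c (prL G H w * (cox G).simple t) (T.erase t) * d (prR G H w) S) =
        (∑ t ∈ T, (sg t (T.erase t) : ℝ) * (c (prL G H w) (T.erase t) -
          c (prL G H w * (cox G).simple t) (T.erase t))) * d (prR G H w) S := by
      rw [Finset.sum_mul]
      exact Finset.sum_congr rfl fun _ _ => by ring
    have e2 : ∑ t ∈ S, (((-1) ^ T.card * sg t (S.erase t) : ℤ) : ℝ) *
        (c (prL G H w) T * d (prR G H w) (S.erase t) -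
        c (prL G H w) T * d (prR G H w * (cox H).simple t) (S.erase t)) =
        ((-1) ^ T.card * c (prL G H w) T) * ∑ t ∈ S, (sg t (S.erase t) : ℝ) *
          (d (prR G H w) (S.erase t) - d (prR G H w * (cox H).simple t) (S.erase t)) := by
      rw [Finset.mul_sum]
      refine Finset.sum_congr rfl fun _ _ => ?_
      push_cast; ring
    rw [e1, e2, h1, h2]; ring

end Prod

end Pool.Agent.P8H64.TP
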